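import Mathlib

/-!
# Block A3: the counting argument and dihedral groups
-/

set_option autoImplicit false

open Finset

namespace PCF

namespace A3

section comb

variable {E Z : Type} [Fintype E] [Fintype Z] [DecidableEq E] [DecidableEq Z]

/-- The gcd of the relative lengths of the cycles that are not in `Ps`. -/
def ep (pr : E → Z) (f : E → ℕ) (Ps : Finset E) (p : Z) : ℕ :=
  (univ.filter (fun e => pr e = p ∧ e ∉ Ps)).gcd f

omit [Fintype Z] in
theorem comb_ineq (pr : E → Z) (f : E → ℕ) (hf : ∀ e, 1 ≤ f e) (Ps : Finset E) (b : ℕ) (p : Z)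
    (hb : ∑ e ∈ univ.filter (fun e => pr e = p), f e = b) (k : ℕ)
    (hk : ep pr f Ps p = 0 ∨ k ≤ ep pr f Ps p) :
    (univ.filter (fun e => pr e = p ∧ e ∈ Ps)).card +
      k * (univ.filter (fun e => pr e = p ∧ e ∉ Ps)).card ≤ b := by
  have h1 : ∑ e ∈ univ.filter (fun e => pr e = p ∧ e ∈ Ps), f e +
      ∑ e ∈ univ.filter (fun e => pr e = p ∧ e ∉ Ps), f e = b := by
    rw [← hb, ← Finset.sum_filter_add_sum_filter_not (univ.filter (fun e => pr e = p))
      (fun e => e ∈ Ps), Finset.filter_filter, Finset.filter_filter]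
  have h2 : (univ.filter (fun e => pr e = p ∧ e ∈ Ps)).card ≤
      ∑ e ∈ univ.filter (fun e => pr e = p ∧ e ∈ Ps), f e := by
    rw [card_eq_sum_ones]
    exact Finset.sum_le_sum fun e _ => hf e
  have h3 : k * (univ.filter (fun e => pr e = p ∧ e ∉ Ps)).card ≤
      ∑ e ∈ univ.filter (fun e => pr e = p ∧ e ∉ Ps), f e := by
    rcases hk with hk | hk
    · have : univ.filter (fun e => pr e = p ∧ e ∉ Ps) = ∅ := by
        rw [eq_empty_iff_forall_notMem]
        intro e he
        have := (Finset.gcd_eq_zero_iff.1 hk) e he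
        have := hf e
        omega
      rw [this]
      simp
    · rw [mul_comm, ← smul_eq_mul]
      apply Finset.card_nsmul_le_sum
      intro e he
      exact hk.trans (Nat.le_of_dvd (hf e) (Finset.gcd_dvd he))
  omega

theorem comb (pr : E → Z) (f : E → ℕ) (hf : ∀ e, 1 ≤ f e) (Ps : Finset E) (r b : ℕ)
    (hr : Ps.card ≤ r) (hb : ∀ p, ∑ e ∈ univ.filter (fun e => pr e = p), f e = b)
    (heu : b * Fintype.card Z + 1 = Fintype.card E + b) (hbr : 4 * r + 1 ≤ b) :
    (univ.filter (fun p => ep pr f Ps p ≠ 1)).card ≤ 1 ∨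
      ((univ.filter (fun p => ep pr f Ps p ≠ 1)).card = 2 ∧
        ∀ p ∈ univ.filter (fun p => ep pr f Ps p ≠ 1), ep pr f Ps p = 2) := by
  set k : Z → ℕ := fun p => (univ.filter (fun e => pr e = p ∧ e ∈ Ps)).card with hk
  set m : Z → ℕ := fun p => (univ.filter (fun e => pr e = p ∧ e ∉ Ps)).card with hm
  have hcnt : ∀ p, (univ.filter (fun e => pr e = p)).card = k p + m p := by
    intro p
    rw [← Finset.card_filter_add_card_filter_not (s := univ.filter (fun e => pr e = p))
      (fun e => e ∈ Ps), Finset.filter_filter, Finset.filter_filter]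
  have hle : ∀ p, k p + m p ≤ b := by
    intro p
    rw [← hcnt, ← hb p, card_eq_sum_ones]
    exact Finset.sum_le_sum fun e _ => hf e
  have hksum : ∀ s : Finset Z, ∑ p ∈ s, k p ≤ r := by
    intro s
    refine le_trans ?_ hr
    have : ∑ p ∈ s, k p = ∑ p ∈ s, (Ps.filter (fun e => pr e = p)).card := by
      refine Finset.sum_congr rfl fun p _ => ?_
      simp only [hk]
      congr 1
      ext e
      simp [and_comm]
    rw [this, ← Finset.card_biUnion]
    · exact card_le_card (fun e he => by
        obtain ⟨p, -, hp⟩ := mem_biUnion.1 he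
        exact (mem_filter.1 hp).1)
    · intro p _ q _ hpq
      rw [Function.onFun, Finset.disjoint_left]
      intro e he he'
      exact hpq ((mem_filter.1 he).2.symm.trans (mem_filter.1 he').2)
  have hsum : ∑ p, (b - (k p + m p)) + 1 = b := by
    have h1 : ∑ p, (k p + m p) = Fintype.card E := by
      rw [← Finset.card_univ,
        Finset.card_eq_sum_card_fiberwise (f := pr) (t := univ) (fun _ _ => by simp)]
      exact Finset.sum_congr rfl fun p _ => (hcnt p).symm
    have h2 : ∑ p, (b - (k p + m p)) + ∑ p, (k p + m p) = ∑ _p : Z, b := by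
      rw [← Finset.sum_add_distrib]
      exact Finset.sum_congr rfl fun p _ => Nat.sub_add_cancel (hle p)
    rw [Finset.sum_const, Finset.card_univ, smul_eq_mul, mul_comm] at h2
    omega
  have hpart : ∀ s : Finset Z, ∑ p ∈ s, (b - (k p + m p)) + 1 ≤ b := by
    intro s
    have := Finset.sum_le_sum_of_subset (f := fun p => b - (k p + m p)) (subset_univ s)
    omega
  have h2 : ∀ p, ep pr f Ps p ≠ 1 → k p + 2 * m p ≤ b := by
    intro p hp
    exact comb_ineq pr f hf Ps b p (hb p) 2 (by omega)
  have h3 : ∀ p, ep pr f Ps p ≠ 1 → ep pr f Ps p ≠ 2 → k p + 3 * m p ≤ b := by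
    intro p hp hp'
    exact comb_ineq pr f hf Ps b p (hb p) 3 (by omega)
  set Bad := univ.filter (fun p => ep pr f Ps p ≠ 1) with hBad
  have hmemBad : ∀ p, p ∈ Bad ↔ ep pr f Ps p ≠ 1 := by intro p; simp [hBad]
  have hcard : Bad.card ≤ 2 := by
    by_contra hcon
    push Not at hcon
    obtain ⟨t, ht, htc⟩ := Finset.exists_subset_card_eq (show 3 ≤ Bad.card by omega)
    obtain ⟨x, y, z, hxy, hxz, hyz, rfl⟩ := Finset.card_eq_three.1 htc
    have e1 := hpart {x, y, z}
    have e2 := hksum {x, y, z}
    rw [Finset.sum_insert (by simp [hxy, hxz]), Finset.sum_insert (by simp [hyz]),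
      Finset.sum_singleton] at e1 e2
    have hx := h2 x ((hmemBad x).1 (ht (by simp)))
    have hy := h2 y ((hmemBad y).1 (ht (by simp)))
    have hz := h2 z ((hmemBad z).1 (ht (by simp)))
    omega
  rcases Nat.lt_or_ge Bad.card 2 with hlt | hge
  · left; omega
  · right
    refine ⟨by omega, ?_⟩
    intro p hp
    by_contra hp2
    obtain ⟨x, y, hxy, hBxy⟩ := Finset.card_eq_two.1 (show Bad.card = 2 by omega)
    have e1 := hpart {x, y}
    have e2 := hksum {x, y}
    rw [Finset.sum_pair hxy] at e1 e2
    have hx := h2 x ((hmemBad x).1 (by rw [hBxy]; simp))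
    have hy := h2 y ((hmemBad y).1 (by rw [hBxy]; simp))
    have hp3 := h3 p ((hmemBad p).1 hp) hp2
    rw [hBxy] at hp
    rcases mem_insert.1 hp with rfl | hp
    · omega
    · rw [mem_singleton] at hp
      subst hp
      omega

end comb

/-! ## Dihedral groups -/

section dihedral

variable {Q : Type} [Group Q]

theorem comm_of_cyclic (a : Q) (h : Subgroup.closure {a} = ⊤) : ∀ u v : Q, u * v = v * u := by
  intro u v
  have hu : u ∈ Subgroup.closure {a} := by rw [h]; trivial
  have hv : v ∈ Subgroup.closure {a} := by rw [h]; trivial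
  rw [Subgroup.mem_closure_singleton] at hu hv
  obtain ⟨k, rfl⟩ := hu
  obtain ⟨l, rfl⟩ := hv
  rw [← zpow_add, ← zpow_add, add_comm]

theorem comm_le_zpowers (a b : Q) (h : Subgroup.closure {a, b} = ⊤) (ha : a * a = 1)
    (hb : b * b = 1) : commutator Q ≤ Subgroup.zpowers (a * b) := by
  have hainv : a⁻¹ = a := inv_eq_of_mul_eq_one_right ha
  have hbinv : b⁻¹ = b := inv_eq_of_mul_eq_one_right hb
  have hN : (Subgroup.zpowers (a * b)).Normal := by
    rw [← Subgroup.normalizer_eq_top_iff, eq_top_iff, ← h, Subgroup.closure_le]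
    intro x hx
    rw [SetLike.mem_coe, Subgroup.mem_normalizer_iff]
    have key : x * (a * b) * x⁻¹ = (a * b)⁻¹ := by
      rcases hx with rfl | hx
      · rw [mul_inv_rev, hbinv, hainv, ← mul_assoc x x b, ha, one_mul]
      · rw [Set.mem_singleton_iff] at hx
        subst hx
        rw [mul_inv_rev, hbinv, hainv, mul_assoc, mul_assoc a x x, hb, mul_one]
    have key2 : ∀ n : ℤ, x * (a * b) ^ n * x⁻¹ = (a * b) ^ (-n) := by
      intro n
      rw [← conj_zpow, key, inv_zpow, zpow_neg]
    intro g
    constructor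
    · rintro ⟨n, rfl⟩
      exact ⟨-n, (key2 n).symm⟩
    · rintro ⟨n, hn⟩
      refine ⟨-n, ?_⟩
      have hx2 : x * x = 1 := by
        rcases hx with rfl | hx
        · exact ha
        · rw [Set.mem_singleton_iff] at hx
          subst hx
          exact hb
      have hxinv : x⁻¹ = x := inv_eq_of_mul_eq_one_right hx2
      have h1 : g = x * (a * b) ^ n * x⁻¹ := by
        simp only at hn
        rw [hn, hxinv]
        calc g = (x * x) * g * (x * x) := by rw [hx2]; group
          _ = x * (x * g * x) * x := by group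
      rw [h1, key2]
  have hQ : ∀ u v : Q ⧸ Subgroup.zpowers (a * b), u * v = v * u := by
    apply comm_of_cyclic (a : Q ⧸ Subgroup.zpowers (a * b))
    rw [eq_top_iff]
    rintro y -
    obtain ⟨y, rfl⟩ := QuotientGroup.mk_surjective y
    have hy : y ∈ Subgroup.closure {a, b} := by rw [h]; trivial
    induction hy using Subgroup.closure_induction with
    | mem x hx =>
      rcases hx with rfl | hx
      · exact Subgroup.subset_closure rfl
      · rw [Set.mem_singleton_iff] at hx
        subst hx
        have : (x : Q ⧸ Subgroup.zpowers (a * x)) = (a : Q ⧸ Subgroup.zpowers (a * x)) := by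
          rw [QuotientGroup.eq, hbinv]
          exact ⟨-1, by simp [hbinv, hainv]⟩
        rw [this]
        exact Subgroup.subset_closure rfl
    | one => exact one_mem _
    | mul u v _ _ hu hv => exact mul_mem hu hv
    | inv u _ hu => exact inv_mem hu
  rw [commutator_def, Subgroup.commutator_le]
  intro u _ v _
  rw [← QuotientGroup.eq_one_iff, commutatorElement_def]
  have := hQ u v
  change (u : Q ⧸ Subgroup.zpowers (a * b)) * v * (u : Q ⧸ Subgroup.zpowers (a * b))⁻¹ *
    (v : Q ⧸ Subgroup.zpowers (a * b))⁻¹ = 1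
  rw [this]
  group

theorem metab_of_dihedral (a b : Q) (h : Subgroup.closure {a, b} = ⊤)
    (hab : a * a = 1 ∧ b * b = 1 ∨ a = 1 ∨ b = 1) :
    ∀ u ∈ commutator Q, ∀ v ∈ commutator Q, u * v = v * u := by
  rcases hab with hab | hab
  · intro u hu v hv
    obtain ⟨k, rfl⟩ := comm_le_zpowers a b h hab.1 hab.2 hu
    obtain ⟨l, rfl⟩ := comm_le_zpowers a b h hab.1 hab.2 hv
    rw [← zpow_add, ← zpow_add, add_comm]
  · intro u _ v _
    rcases hab with rfl | rfl
    · refine comm_of_cyclic b ?_ u v
      rw [← h, Subgroup.closure_insert_one]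
    · refine comm_of_cyclic a ?_ u v
      rw [← h, Set.pair_comm, Subgroup.closure_insert_one]

end dihedral

end A3

end PCF
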