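import Pool.Agent.Work.MP_80ff4e_al.Interface

/-!
# Block T: permutation groups whose cycles form a tree
-/

set_option autoImplicit false

open Finset

namespace PCF

namespace TBlock

/-! ## The hypergraph lemma -/

section hyper

variable {Y E : Type} [Fintype Y] [Fintype E] [DecidableEq Y] [DecidableEq E]

theorem greedy (sup : E → Finset Y)
    (conn : ∀ U : Finset Y, U.Nonempty → (∀ e, (sup e ∩ U).Nonempty → sup e ⊆ U) → U = univ) :
    ∀ (n : ℕ) (F : Finset E) (U : Finset Y), (Fᶜ).card = n → U.Nonempty →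
      (∀ e ∈ F, sup e ⊆ U) →
      Fintype.card Y ≤ U.card + ∑ e ∈ Fᶜ, ((sup e).card - 1) := by
  intro n
  induction n with
  | zero =>
    intro F U hn hU hF
    have hFc : Fᶜ = ∅ := by simpa using hn
    have hFu : F = univ := by simpa using hFc
    have : U = univ := conn U hU (fun e _ => hF e (by rw [hFu]; exact mem_univ e))
    rw [this]
    simp
  | succ n ih =>
    intro F U hn hU hF
    by_cases hex : ∃ e, e ∉ F ∧ (sup e ∩ U).Nonempty
    · obtain ⟨e, heF, hne⟩ := hex
      have hcard : ((insert e F)ᶜ).card = n := by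
        rw [compl_insert, card_erase_of_mem (by simpa using heF), hn]
        rfl
      have h1 := ih (insert e F) (U ∪ sup e) hcard (hU.mono subset_union_left) (by
        intro e' he'
        rcases mem_insert.1 he' with rfl | he'
        · exact subset_union_right
        · exact (hF e' he').trans subset_union_left)
      have h2 : ∑ e' ∈ Fᶜ, ((sup e').card - 1) =
          ((sup e).card - 1) + ∑ e' ∈ (insert e F)ᶜ, ((sup e').card - 1) := by
        rw [compl_insert]
        exact (add_sum_erase Fᶜ (fun e' => (sup e').card - 1) (by simpa using heF)).symm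
      have h3 : (U ∪ sup e).card + (U ∩ sup e).card = U.card + (sup e).card :=
        card_union_add_card_inter U (sup e)
      have h4 : 1 ≤ (U ∩ sup e).card := by
        rw [inter_comm]
        exact hne.card_pos
      omega
    · push Not at hex
      have : U = univ := by
        apply conn U hU
        intro e he
        by_cases heF : e ∈ F
        · exact hF e heF
        · exact absurd he (by rw [hex e heF]; simp)
      rw [this]
      simp

/-- In the equality case an edge that meets the current set meets it in one point. -/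
theorem greedy_step (sup : E → Finset Y)
    (conn : ∀ U : Finset Y, U.Nonempty → (∀ e, (sup e ∩ U).Nonempty → sup e ⊆ U) → U = univ)
    (heq : Fintype.card Y = 1 + ∑ e, ((sup e).card - 1))
    (F : Finset E) (U : Finset Y) (hU : U.Nonempty) (hF : ∀ e ∈ F, sup e ⊆ U)
    (hle : U.card ≤ 1 + ∑ e ∈ F, ((sup e).card - 1)) (e : E) (heF : e ∉ F)
    (y : Y) (hye : y ∈ sup e) (hyU : y ∈ U) :
    (∀ z, z ∈ sup e → z ∈ U → z = y) ∧
      (U ∪ sup e).card ≤ 1 + ∑ e' ∈ insert e F, ((sup e').card - 1) := by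
  have h1 := greedy sup conn _ (insert e F) (U ∪ sup e) rfl (hU.mono subset_union_left) (by
        intro e' he'
        rcases mem_insert.1 he' with rfl | he'
        · exact subset_union_right
        · exact (hF e' he').trans subset_union_left)
  have h2 : ∑ e' ∈ insert e F, ((sup e').card - 1) + ∑ e' ∈ (insert e F)ᶜ, ((sup e').card - 1) =
      ∑ e, ((sup e).card - 1) := sum_add_sum_compl _ _
  have h3 : (U ∪ sup e).card + (U ∩ sup e).card = U.card + (sup e).card :=
    card_union_add_card_inter U (sup e)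
  have h4 : ∑ e' ∈ insert e F, ((sup e').card - 1) =
      ((sup e).card - 1) + ∑ e' ∈ F, ((sup e').card - 1) := sum_insert heF
  have h5 : 1 ≤ (sup e).card := card_pos.2 ⟨y, hye⟩
  have h6 : 1 ≤ (U ∩ sup e).card := card_pos.2 ⟨y, mem_inter.2 ⟨hyU, hye⟩⟩
  constructor
  · intro z hz hzU
    by_contra hne
    have h7 : 2 ≤ (U ∩ sup e).card := by
      rw [← card_pair hne]
      apply card_le_card
      intro w hw
      rcases mem_insert.1 hw with rfl | hw
      · exact mem_inter.2 ⟨hzU, hz⟩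
      · rw [mem_singleton.1 hw]
        exact mem_inter.2 ⟨hyU, hye⟩
    omega
  · omega

end hyper

/-! ## Cycles -/

section cyc

variable {Γ Y : Type} [Group Γ] [MulAction Γ Y]

/-- The orbit quotient of a cyclic group generated by `g`. -/
abbrev Q (Γ Y : Type) [Group Γ] [MulAction Γ Y] (g : Γ) : Type :=
  MulAction.orbitRel.Quotient (Subgroup.zpowers g) Y

theorem mk_eq_iff (g : Γ) (x y : Y) :
    (Quotient.mk'' x : Q Γ Y g) = Quotient.mk'' y ↔ ∃ k : ℤ, g ^ k • y = x := by
  rw [Quotient.eq'', MulAction.orbitRel_apply]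
  constructor
  · rintro ⟨⟨_, k, rfl⟩, hk⟩
    exact ⟨k, hk⟩
  · rintro ⟨k, rfl⟩
    exact ⟨⟨g ^ k, k, rfl⟩, rfl⟩

theorem mk_smul (g : Γ) (y : Y) :
    (Quotient.mk'' (g • y) : Q Γ Y g) = Quotient.mk'' y :=
  (mk_eq_iff g _ _).2 ⟨1, by rw [zpow_one]⟩

theorem period_pos [Finite Y] (g : Γ) (y : Y) : 0 < MulAction.period g y := by
  have := MulAction.minimalPeriod_pos g y
  exact Nat.pos_of_ne_zero this.out

/-- every point of the cycle of `y` is `g ^ j • y` with `j` smaller than the period. -/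
theorem exists_pow [Finite Y] (g : Γ) (x y : Y)
    (h : (Quotient.mk'' x : Q Γ Y g) = Quotient.mk'' y) :
    ∃ j : ℕ, j < MulAction.period g y ∧ g ^ j • y = x := by
  obtain ⟨k, rfl⟩ := (mk_eq_iff g x y).1 h
  have hpos : 0 < MulAction.period g y := period_pos g y
  have h0 : (0 : ℤ) < MulAction.period g y := by exact_mod_cast hpos
  have h1 : 0 ≤ k % (MulAction.period g y : ℤ) := Int.emod_nonneg _ h0.ne'
  have h2 : k % (MulAction.period g y : ℤ) < MulAction.period g y := Int.emod_lt_of_pos _ h0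
  refine ⟨(k % (MulAction.period g y : ℤ)).toNat, by omega, ?_⟩
  rw [← zpow_natCast, Int.toNat_of_nonneg h1, MulAction.zpow_mod_period_smul]

variable {ι : Type}

/-- The cycles of all generators. -/
abbrev E (Y : Type) [MulAction Γ Y] (h : ι → Γ) : Type := Σ i, Q Γ Y (h i)

open Classical in
/-- The set of points of a cycle. -/
noncomputable def sup [Fintype Y] (h : ι → Γ) (e : E Y h) : Finset Y :=
  univ.filter (fun y => (Quotient.mk'' y : Q Γ Y (h e.1)) = e.2)

theorem mem_sup [Fintype Y] (h : ι → Γ) (e : E Y h) (y : Y) :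
    y ∈ sup h e ↔ (Quotient.mk'' y : Q Γ Y (h e.1)) = e.2 := by
  classical
  simp [sup]

theorem sup_pos [Fintype Y] (h : ι → Γ) (e : E Y h) : 1 ≤ (sup h e).card := by
  obtain ⟨i, p⟩ := e
  induction p using Quotient.inductionOn' with
  | h y => exact card_pos.2 ⟨y, (mem_sup h _ y).2 rfl⟩

theorem sum_sup [Fintype Y] [Fintype ι] (h : ι → Γ) [Fintype (E Y h)] :
    ∑ i, (Nat.card Y - ncyc Γ Y (h i)) = ∑ e : E Y h, ((sup h e).card - 1) := by
  classical
  have : ∀ i, Fintype (Q Γ Y (h i)) := fun i => Fintype.ofFinite _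
  have h1 : ∑ e : E Y h, ((sup h e).card - 1) =
      ∑ i, ∑ p : Q Γ Y (h i), ((sup h ⟨i, p⟩).card - 1) := by
    rw [← Fintype.sum_sigma' (f := fun i (p : Q Γ Y (h i)) => (sup h ⟨i, p⟩).card - 1)]
    exact Finset.sum_congr (by ext; simp) fun _ _ => rfl
  rw [h1]
  refine Finset.sum_congr rfl fun i _ => ?_
  have h2 : Nat.card Y = ∑ p : Q Γ Y (h i), (sup h ⟨i, p⟩).card := by
    rw [Nat.card_eq_fintype_card, ← Finset.card_univ,
      Finset.card_eq_sum_card_fiberwise (f := fun y => (Quotient.mk'' y : Q Γ Y (h i)))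
        (t := univ) (fun _ _ => by simp)]
    refine Finset.sum_congr rfl fun p _ => ?_
    congr 1
  have h3 : ∑ p : Q Γ Y (h i), (sup h ⟨i, p⟩).card =
      ∑ p : Q Γ Y (h i), ((sup h ⟨i, p⟩).card - 1) + ncyc Γ Y (h i) := by
    have : ncyc Γ Y (h i) = ∑ p : Q Γ Y (h i), 1 := by
      simp [ncyc, Nat.card_eq_fintype_card]
    rw [this, ← Finset.sum_add_distrib]
    refine Finset.sum_congr rfl fun p _ => ?_
    have := sup_pos h ⟨i, p⟩
    omega
  omega

theorem conn [Fintype Y] [DecidableEq Y] [MulAction.IsPretransitive Γ Y] (h : ι → Γ)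
    (hgen : Subgroup.closure (Set.range h) = ⊤) (U : Finset Y) (hU : U.Nonempty)
    (hcl : ∀ e : E Y h, (sup h e ∩ U).Nonempty → sup h e ⊆ U) : U = univ := by
  obtain ⟨x, hx⟩ := hU
  have key : ∀ g : Γ, ∀ y, y ∈ U → g • y ∈ U := by
    intro g
    have hg : g ∈ Subgroup.closure (Set.range h) := by rw [hgen]; trivial
    induction hg using Subgroup.closure_induction'' with
    | mem g hg =>
      obtain ⟨i, rfl⟩ := hg
      intro y hy
      exact hcl ⟨i, Quotient.mk'' y⟩ ⟨y, mem_inter.2 ⟨(mem_sup h _ y).2 rfl, hy⟩⟩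
        ((mem_sup h _ _).2 (mk_smul _ _))
    | inv_mem g hg =>
      obtain ⟨i, rfl⟩ := hg
      intro y hy
      refine hcl ⟨i, Quotient.mk'' y⟩ ⟨y, mem_inter.2 ⟨(mem_sup h _ y).2 rfl, hy⟩⟩
        ((mem_sup h _ _).2 ?_)
      exact (mk_eq_iff _ _ _).2 ⟨-1, by rw [zpow_neg_one]⟩
    | one => intro y hy; rwa [one_smul]
    | mul a b _ _ iha ihb => intro y hy; rw [mul_smul]; exact iha _ (ihb _ hy)
  ext y
  simp only [mem_univ, iff_true]
  obtain ⟨g, rfl⟩ := MulAction.exists_smul_eq Γ x y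
  exact key g x hx

/-- The subgroup generated by the conjugates of powers for the cycles in `F`. -/
def N' [Fintype Y] (h : ι → Γ) (y₀ : Y) (F : Finset (E Y h)) (c : E Y h → Γ) : Subgroup Γ :=
  Subgroup.closure {g | ∃ e ∈ F, g = c e *
    (h e.1) ^ (MulAction.period (h e.1) ((c e)⁻¹ • y₀)) * (c e)⁻¹}

/-- The invariant of the construction. -/
def Inv [Fintype Y] (h : ι → Γ) (y₀ : Y) (F : Finset (E Y h)) (U : Finset Y) : Prop :=
  y₀ ∈ U ∧ (∀ e ∈ F, sup h e ⊆ U) ∧ U.card ≤ 1 + ∑ e ∈ F, ((sup h e).card - 1) ∧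
    ∃ (T : Y → Γ) (c : E Y h → Γ), T y₀ = 1 ∧ (∀ y ∈ U, T y • y₀ = y) ∧
      (∀ e ∈ F, (c e)⁻¹ • y₀ ∈ sup h e) ∧
      ∀ e ∈ F, ∀ y ∈ sup h e, (T (h e.1 • y))⁻¹ * h e.1 * T y ∈ N' h y₀ F c

theorem pow_inj_of_lt (g : Γ) (y : Y) {a b : ℕ} (ha : a < MulAction.period g y)
    (hb : b < MulAction.period g y) (h : g ^ a • y = g ^ b • y) : a = b := by
  have := (Function.iterate_eq_iterate_iff_of_lt_minimalPeriod
    (f := fun z => g • z) (x := y) ha hb).1
  apply this
  rw [smul_iterate_apply, smul_iterate_apply, h]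

theorem inv_step [Fintype Y] [DecidableEq Y] (h : ι → Γ) [Fintype (E Y h)] [DecidableEq (E Y h)]
    [MulAction.IsPretransitive Γ Y]
    (hgen : Subgroup.closure (Set.range h) = ⊤) (y₀ : Y)
    (heq : Fintype.card Y = 1 + ∑ e : E Y h, ((sup h e).card - 1))
    (F : Finset (E Y h)) (U : Finset Y) (hI : Inv h y₀ F U) (e : E Y h) (heF : e ∉ F)
    (y₁ : Y) (hye : y₁ ∈ sup h e) (hyU : y₁ ∈ U) : Inv h y₀ (insert e F) (U ∪ sup h e) := by
  classical
  obtain ⟨h0, hFU, hcard, T, c, hT0, hTU, hcF, hN⟩ := hI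
  obtain ⟨huniq, hcard'⟩ := greedy_step (sup h) (fun U hU hcl => conn h hgen U hU hcl) heq F U
    ⟨y₀, h0⟩ hFU hcard e heF y₁ hye hyU
  -- the exponent
  have hj : ∀ y : Y, ∃ j : ℕ, y ∈ sup h e → j < MulAction.period (h e.1) y₁ ∧
      (h e.1) ^ j • y₁ = y := by
    intro y
    by_cases hy : y ∈ sup h e
    · obtain ⟨j, h1, h2⟩ := exists_pow (h e.1) y y₁ (by
        rw [(mem_sup h e y).1 hy, (mem_sup h e y₁).1 hye])
      exact ⟨j, fun _ => ⟨h1, h2⟩⟩
    · exact ⟨0, fun h => absurd h hy⟩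
  choose j hj using hj
  have hsupmem : ∀ k : ℕ, (h e.1) ^ k • y₁ ∈ sup h e := by
    intro k
    rw [mem_sup, ← (mem_sup h e y₁).1 hye]
    exact (mk_eq_iff _ _ _).2 ⟨k, by rw [zpow_natCast]⟩
  have hjk : ∀ k : ℕ, k < MulAction.period (h e.1) y₁ → j ((h e.1) ^ k • y₁) = k := by
    intro k hk
    obtain ⟨h1, h2⟩ := hj _ (hsupmem k)
    exact pow_inj_of_lt _ _ h1 hk h2
  have hj1 : j y₁ = 0 := by
    have := hjk 0 (period_pos _ _)
    rwa [pow_zero, one_smul] at this
  let T' : Y → Γ := fun y => if y ∈ U then T y else (h e.1) ^ (j y) * T y₁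
  let c' : E Y h → Γ := Function.update c e (T y₁)⁻¹
  have hT'U : ∀ y ∈ U, T' y = T y := fun y hy => by simp only [T', if_pos hy]
  have hT'e : ∀ y ∈ sup h e, T' y = (h e.1) ^ (j y) * T y₁ := by
    intro y hy
    by_cases hyU' : y ∈ U
    · have := huniq y hy hyU'
      rw [this, hT'U _ hyU, hj1, pow_zero, one_mul]
    · simp only [T', if_neg hyU']
  have hc'e : c' e = (T y₁)⁻¹ := by simp only [c', Function.update_self]
  have hc'F : ∀ e' ∈ F, c' e' = c e' := by
    intro e' he'
    have : e' ≠ e := fun h => heF (h ▸ he')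
    simp only [c', Function.update_of_ne this]
  have hNle : N' h y₀ F c ≤ N' h y₀ (insert e F) c' := by
    apply Subgroup.closure_mono
    rintro g ⟨e', he', rfl⟩
    exact ⟨e', mem_insert_of_mem he', by rw [hc'F e' he']⟩
  refine ⟨mem_union_left _ h0, ?_, hcard', T', c', by rw [hT'U _ h0, hT0], ?_, ?_, ?_⟩
  · intro e' he'
    rcases mem_insert.1 he' with rfl | he'
    · exact subset_union_right
    · exact (hFU e' he').trans subset_union_left
  · intro y hy
    rcases mem_union.1 hy with hy | hy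
    · rw [hT'U y hy]; exact hTU y hy
    · rw [hT'e y hy, mul_smul, hTU y₁ hyU]
      exact (hj y hy).2
  · intro e' he'
    rcases mem_insert.1 he' with rfl | he'
    · rw [hc'e, inv_inv, hTU y₁ hyU]; exact hye
    · rw [hc'F e' he']; exact hcF e' he'
  · intro e' he' y hy
    rcases mem_insert.1 he' with rfl | he'
    · obtain ⟨h1, h2⟩ := hj y hy
      have hhy : h e'.1 • y = (h e'.1) ^ (j y + 1) • y₁ := by
        rw [pow_succ', mul_smul, h2]
      have hmem : h e'.1 • y ∈ sup h e' := by rw [hhy]; exact hsupmem _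
      rw [hT'e y hy, hT'e _ hmem]
      rcases Nat.lt_or_ge (j y + 1) (MulAction.period (h e'.1) y₁) with hlt | hge
      · rw [hhy, hjk _ hlt]
        have : ((h e'.1) ^ (j y + 1) * T y₁)⁻¹ * h e'.1 * ((h e'.1) ^ (j y) * T y₁) = 1 := by
          rw [pow_succ']; group
        rw [this]
        exact one_mem _
      · have hper : j y + 1 = MulAction.period (h e'.1) y₁ := by omega
        have hfix : h e'.1 • y = y₁ := by
          rw [hhy, hper, MulAction.pow_period_smul]
        rw [hfix, hj1, pow_zero, one_mul]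
        apply Subgroup.subset_closure
        refine ⟨e', mem_insert_self _ _, ?_⟩
        rw [hc'e, inv_inv, hTU y₁ hyU, ← hper, pow_succ']
        group
    · have hyU' : y ∈ U := hFU e' he' hy
      have hhyU' : h e'.1 • y ∈ U := hFU e' he' ((mem_sup h e' _).2 (by
        rw [mk_smul]; exact (mem_sup h e' _).1 hy))
      rw [hT'U _ hyU', hT'U _ hhyU']
      exact hNle (hN e' he' y hy)

theorem inv_final [Fintype Y] [DecidableEq Y] (h : ι → Γ) [Fintype (E Y h)] [DecidableEq (E Y h)]
    [MulAction.IsPretransitive Γ Y]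
    (hgen : Subgroup.closure (Set.range h) = ⊤) (y₀ : Y)
    (heq : Fintype.card Y = 1 + ∑ e : E Y h, ((sup h e).card - 1)) :
    ∀ (n : ℕ) (F : Finset (E Y h)) (U : Finset Y), (Fᶜ).card = n → Inv h y₀ F U →
      Inv h y₀ univ univ := by
  intro n
  induction n with
  | zero =>
    intro F U hn hI
    have hFc : Fᶜ = ∅ := by simpa using hn
    have hFu : F = univ := by simpa using hFc
    subst hFu
    have : U = univ := conn h hgen U ⟨y₀, hI.1⟩ (fun e _ => hI.2.1 e (mem_univ e))
    rwa [this] at hI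
  | succ n ih =>
    intro F U hn hI
    obtain ⟨e, heF, hne⟩ : ∃ e, e ∉ F ∧ (sup h e ∩ U).Nonempty := by
      by_contra hex
      push Not at hex
      have hU : U = univ := by
        apply conn h hgen U ⟨y₀, hI.1⟩
        intro e he
        by_cases heF : e ∈ F
        · exact hI.2.1 e heF
        · exact absurd he (by rw [hex e heF]; simp)
      have hpos : 0 < (Fᶜ).card := by omega
      obtain ⟨e, he⟩ := card_pos.1 hpos
      have h1 := hex e (by simpa using he)
      rw [hU, inter_univ] at h1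
      have := sup_pos h e
      rw [h1] at this
      simp at this
    obtain ⟨y₁, hy₁⟩ := hne
    refine ih (insert e F) (U ∪ sup h e) ?_ (inv_step h hgen y₀ heq F U hI e heF y₁
      (mem_inter.1 hy₁).1 (mem_inter.1 hy₁).2)
    rw [compl_insert, card_erase_of_mem (by simpa using heF), hn]
    rfl

end cyc

end TBlock

open TBlock

theorem stmt_T2 : Stmt_T2 := by
  intro Γ Y ι _ _ _ _ _ h hgen
  classical
  have : Fintype Y := Fintype.ofFinite Y
  have : ∀ i, Fintype (Q Γ Y (h i)) := fun i => Fintype.ofFinite _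
  rcases isEmpty_or_nonempty Y with hY | ⟨⟨y₀⟩⟩
  · simp
  · rw [sum_sup h]
    have := greedy (sup h) (fun U hU hcl => conn h hgen U hU hcl) _ ∅ {y₀} rfl ⟨y₀, by simp⟩
      (by simp)
    rw [card_singleton, compl_empty] at this
    rw [Nat.card_eq_fintype_card]
    omega

theorem stmt_T1 : Stmt_T1 := by
  intro Γ Y ι _ _ _ _ _ h hgen heq y₀
  classical
  have : Fintype Y := Fintype.ofFinite Y
  have : ∀ i, Fintype (Q Γ Y (h i)) := fun i => Fintype.ofFinite _
  rw [sum_sup h, Nat.card_eq_fintype_card] at heq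
  have hI0 : Inv h y₀ ∅ {y₀} := by
    refine ⟨by simp, by simp, by simp, fun _ => 1, fun _ => 1, rfl, ?_, by simp, by simp⟩
    intro y hy
    rw [mem_singleton.1 hy, one_smul]
  obtain ⟨-, -, -, T, c, hT0, hTU, hcF, hN⟩ := inv_final h hgen y₀ (by omega) _ ∅ {y₀} rfl hI0
  refine ⟨fun i p => c ⟨i, p⟩, fun i p => (mem_sup h ⟨i, p⟩ _).1 (hcF ⟨i, p⟩ (mem_univ _)), ?_⟩
  have hNeq : N' h y₀ univ c = Subgroup.closure
        {g | ∃ i p, g = c ⟨i, p⟩ * (h i) ^ (MulAction.period (h i) ((c ⟨i, p⟩)⁻¹ • y₀)) *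
          (c ⟨i, p⟩)⁻¹} := by
    unfold N'
    congr 1
    ext g
    constructor
    · rintro ⟨⟨i, p⟩, -, hg⟩
      exact ⟨i, p, hg⟩
    · rintro ⟨i, p, hg⟩
      exact ⟨⟨i, p⟩, mem_univ _, hg⟩
  rw [← hNeq]
  apply le_antisymm
  · -- the equivariant map
    let s : Y → Γ ⧸ N' h y₀ univ c := fun y => (T y : Γ ⧸ N' h y₀ univ c)
    have key : ∀ g : Γ, ∀ y, g • s y = s (g • y) := by
      intro g
      have hg : g ∈ Subgroup.closure (Set.range h) := by rw [hgen]; trivial
      have hgen' : ∀ i y, h i • s y = s (h i • y) := by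
        intro i y
        change ((h i * T y : Γ) : Γ ⧸ N' h y₀ univ c) = (T (h i • y) : Γ ⧸ N' h y₀ univ c)
        symm
        rw [QuotientGroup.eq]
        have := hN ⟨i, Quotient.mk'' y⟩ (mem_univ _) y ((mem_sup h _ y).2 rfl)
        rw [← mul_assoc]
        exact this
      induction hg using Subgroup.closure_induction'' with
      | mem g hg =>
        obtain ⟨i, rfl⟩ := hg
        exact hgen' i
      | inv_mem g hg =>
        obtain ⟨i, rfl⟩ := hg
        intro y
        rw [inv_smul_eq_iff, hgen', smul_inv_smul]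
      | one => intro y; rw [one_smul, one_smul]
      | mul a b _ _ iha ihb => intro y; rw [mul_smul, mul_smul, ihb, iha]
    intro g hg
    have h1 := key g y₀
    rw [MulAction.mem_stabilizer_iff.1 hg] at h1
    change ((g * T y₀ : Γ) : Γ ⧸ N' h y₀ univ c) = (T y₀ : Γ ⧸ N' h y₀ univ c) at h1
    rw [hT0, mul_one] at h1
    have h2 := QuotientGroup.eq.1 h1.symm
    rwa [inv_one, one_mul] at h2
  · unfold N'
    rw [Subgroup.closure_le]
    rintro g ⟨e, -, rfl⟩
    rw [SetLike.mem_coe, MulAction.mem_stabilizer_iff, mul_smul, mul_smul,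
      MulAction.pow_period_smul, smul_inv_smul]

theorem stmt_T3 : Stmt_T3 := by
  intro Γ Y Z ι _ _ _ _ _ _ _ h π hπ heqv hgen heq
  classical
  have : Fintype Y := Fintype.ofFinite Y
  have : Fintype Z := Fintype.ofFinite Z
  have htZ : MulAction.IsPretransitive Γ Z := by
    constructor
    intro z z'
    obtain ⟨y, rfl⟩ := hπ z
    obtain ⟨y', rfl⟩ := hπ z'
    obtain ⟨g, rfl⟩ := MulAction.exists_smul_eq Γ y y'
    exact ⟨g, (heqv g y).symm⟩
  have hT2 := stmt_T2 Γ Z ι h hgen
  have hYpos : 0 < Nat.card Y := by omega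
  obtain ⟨y₀⟩ : Nonempty Y := (Nat.card_pos_iff.1 hYpos).1
  let fib : Z → Finset Y := fun z => univ.filter (fun y => π y = z)
  have hmemfib : ∀ z y, y ∈ fib z ↔ π y = z := by intro z y; simp [fib]
  let b := (fib (π y₀)).card
  have hbpos : 0 < b := card_pos.2 ⟨y₀, (hmemfib _ _).2 rfl⟩
  have hb : ∀ z, (fib z).card = b := by
    intro z
    obtain ⟨g, hg⟩ := MulAction.exists_smul_eq Γ z (π y₀)
    apply Finset.card_bij (fun y _ => g • y)
    · intro y hy
      rw [hmemfib] at hy ⊢
      rw [heqv, hy, hg]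
    · intro y _ y' _ hyy
      exact smul_left_cancel g hyy
    · intro y hy
      refine ⟨g⁻¹ • y, ?_, smul_inv_smul g y⟩
      rw [hmemfib] at hy ⊢
      rw [heqv, hy, ← hg, inv_smul_smul]
  have hYZ : Nat.card Y = b * Nat.card Z := by
    rw [Nat.card_eq_fintype_card, Nat.card_eq_fintype_card, ← Finset.card_univ (α := Y),
      Finset.card_eq_sum_card_fiberwise (f := π) (t := univ) (fun _ _ => by simp)]
    rw [Finset.sum_congr rfl (fun z _ => hb z)]
    simp [mul_comm]
  have hcyc : ∀ g : Γ, ncyc Γ Y g ≤ b * ncyc Γ Z g := by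
    intro g
    have : Fintype (Q Γ Y g) := Fintype.ofFinite _
    have : Fintype (Q Γ Z g) := Fintype.ofFinite _
    -- surjection from pairs
    let S : Finset Y := univ.biUnion (fun p : Q Γ Z g => fib p.out)
    have hS : S.card ≤ ∑ p : Q Γ Z g, (fib p.out).card := card_biUnion_le
    rw [Finset.sum_congr rfl (fun p _ => hb p.out)] at hS
    have hsurj : (univ : Finset (Q Γ Y g)) ⊆ S.image (fun y => (Quotient.mk'' y : Q Γ Y g)) := by
      intro q _
      induction q using Quotient.inductionOn' with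
      | h y =>
        obtain ⟨k, hk⟩ := (mk_eq_iff g (Quotient.out (Quotient.mk'' (π y) : Q Γ Z g)) (π y)).1
          (Quotient.out_eq' _)
        rw [mem_image]
        refine ⟨g ^ k • y, ?_, (mk_eq_iff g _ _).2 ⟨k, rfl⟩⟩
        rw [mem_biUnion]
        refine ⟨(Quotient.mk'' (π y) : Q Γ Z g), mem_univ _, ?_⟩
        rw [hmemfib, heqv, hk]
    have h1 := (card_le_card hsurj).trans card_image_le
    rw [Finset.card_univ] at h1
    have h2 : ncyc Γ Y g = Fintype.card (Q Γ Y g) := by
      simp [ncyc, Nat.card_eq_fintype_card]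
    have h3 : ncyc Γ Z g = Fintype.card (Q Γ Z g) := by
      simp [ncyc, Nat.card_eq_fintype_card]
    rw [h2, h3]
    calc Fintype.card (Q Γ Y g) ≤ S.card := h1
      _ ≤ _ := hS
      _ = _ := by simp [mul_comm]
  have hsum : b * ∑ i, (Nat.card Z - ncyc Γ Z (h i)) ≤ ∑ i, (Nat.card Y - ncyc Γ Y (h i)) := by
    rw [Finset.mul_sum]
    refine Finset.sum_le_sum fun i _ => ?_
    rw [Nat.mul_sub, hYZ]
    have := hcyc (h i)
    omega
  have hlt : b * ∑ i, (Nat.card Z - ncyc Γ Z (h i)) < b * Nat.card Z := by omega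
  have := Nat.lt_of_mul_lt_mul_left hlt
  omega

end PCF
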