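import Pool.Agent.Work.MP_80ff4e_al.Interface2
import Pool.Agent.Work.MP_80ff4e_al_56.T
import Pool.Agent.Work.MP_80ff4e_al_56.A3comb

/-!
# Block A3: large blocks
-/

set_option autoImplicit false

open Finset hiding sup mem_sup

namespace PCF

namespace A3

open TBlock

/-! ## Generalities on cycles -/

section gen

variable {Γ Y : Type} [Group Γ] [MulAction Γ Y] {ι : Type}

theorem card_sup [Fintype Y] (h : ι → Γ) (i : ι) (y : Y) :
    (sup h ⟨i, (Quotient.mk'' y : Q Γ Y (h i))⟩).card = MulAction.period (h i) y := by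
  classical
  rw [← Finset.card_range (MulAction.period (h i) y)]
  symm
  apply Finset.card_bij (fun j _ => (h i) ^ j • y)
  · intro j _
    rw [mem_sup]
    exact (mk_eq_iff _ _ _).2 ⟨j, by rw [zpow_natCast]⟩
  · intro j hj k hk hjk
    exact pow_inj_of_lt _ _ (mem_range.1 hj) (mem_range.1 hk) hjk
  · intro x hx
    rw [mem_sup] at hx
    obtain ⟨j, h1, h2⟩ := exists_pow (h i) x y hx
    exact ⟨j, mem_range.2 h1, h2⟩

theorem euler [Fintype Y] [Fintype ι] (h : ι → Γ) [Fintype (E Y h)]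
    (heq : (∑ i, (Nat.card Y - ncyc Γ Y (h i))) + 1 = Nat.card Y) :
    Fintype.card ι * Nat.card Y + 1 = Nat.card Y + Fintype.card (E Y h) := by
  classical
  have : ∀ i, Fintype (Q Γ Y (h i)) := fun i => Fintype.ofFinite _
  have h1 : ∀ i, ncyc Γ Y (h i) ≤ Nat.card Y := by
    intro i
    exact Nat.card_le_card_of_surjective (fun y => (Quotient.mk'' y : Q Γ Y (h i)))
      Quotient.mk''_surjective
  have h2 : ∑ i, (Nat.card Y - ncyc Γ Y (h i)) + ∑ i, ncyc Γ Y (h i) =
      Fintype.card ι * Nat.card Y := by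
    rw [← Finset.sum_add_distrib, Finset.sum_congr rfl (fun i _ => Nat.sub_add_cancel (h1 i))]
    simp
  have h3 : ∑ i, ncyc Γ Y (h i) = Fintype.card (E Y h) := by
    rw [← Nat.card_eq_fintype_card, Nat.card_sigma]
    rfl
  omega

end gen

/-! ## Words of length `n` -/

section words

variable {G X : Type} [Group G] [Fintype X]

/-- The words of length `n`, with the action given by `S`. -/
def W (_S : SelfSim G X) (n : ℕ) : Type := {w : List X // w.length = n}

noncomputable instance (S : SelfSim G X) (n : ℕ) : Fintype (W S n) :=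
  inferInstanceAs (Fintype (List.Vector X n))

theorem card_W (S : SelfSim G X) (n : ℕ) : Nat.card (W S n) = Fintype.card X ^ n := by
  rw [Nat.card_eq_fintype_card]
  exact card_vector n

instance (S : SelfSim G X) (n : ℕ) : MulAction G (W S n) where
  smul g w := ⟨S.wact g w.1, by rw [S.length_wact]; exact w.2⟩
  one_smul w := Subtype.ext (S.wact_one w.1)
  mul_smul g h w := Subtype.ext (S.wact_mul g h w.1)

omit [Fintype X] in
theorem smul_val (S : SelfSim G X) (n : ℕ) (g : G) (w : W S n) :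
    (g • w).1 = S.wact g w.1 := rfl

omit [Fintype X] in
theorem smul_eq_iff (S : SelfSim G X) (n : ℕ) (g : G) (w w' : W S n) :
    g • w = w' ↔ S.wact g w.1 = w'.1 := by
  rw [← smul_val]
  exact Subtype.ext_iff

omit [Fintype X] in
theorem conj_K (S : SelfSim G X) {g c : G} {w : List X} (hg : g ∈ S.K w) :
    c * g * c⁻¹ ∈ S.K (S.wact c w) := by
  rw [S.mem_K] at hg ⊢
  constructor
  · rw [S.wact_mul, S.wact_mul, S.wact_inv_wact, hg.1]
  · rw [S.wsec_conj, hg.1, hg.2]
    group

theorem mem_StB_iff (S : SelfSim G X) {n : ℕ} {B : Set (List X)} (hB : S.IsBlk n B)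
    {w₀ : List X} (hw₀ : w₀ ∈ B) (g : G) : g ∈ S.StB B ↔ S.wact g w₀ ∈ B := by
  constructor
  · intro h
    exact (h w₀).2 hw₀
  · intro h v
    have hmap : ∀ v ∈ B, S.wact g v ∈ B := hB.2.2 g w₀ hw₀ h
    refine ⟨fun hv => ?_, hmap v⟩
    have hfin : B.Finite := (lev X n).finite_toSet.subset (fun w hw => by
      rw [mem_coe, mem_lev]
      exact hB.2.1 w hw)
    have himg : S.wact g '' B = B := by
      apply Set.eq_of_subset_of_ncard_le (ht := hfin)
      · rintro _ ⟨v, hv, rfl⟩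
        exact hmap v hv
      · rw [Set.ncard_image_of_injective _ (S.wact_injective g)]
    rw [← himg] at hv
    obtain ⟨v', hv', he⟩ := hv
    rwa [← S.wact_injective g he]

end words

/-! ## Metabelian quotients -/

section quot

variable {G : Type} [Group G]

theorem pow_gcd_mem (R : Subgroup G) (g : G) {α : Type} (s : Finset α) (f : α → ℕ)
    (h : ∀ e ∈ s, g ^ f e ∈ R) : g ^ s.gcd f ∈ R := by
  classical
  induction s using Finset.induction_on with
  | empty => simp
  | insert a s ha ih =>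
    rw [Finset.gcd_insert]
    change g ^ (Nat.gcd (f a) (s.gcd f)) ∈ R
    have h1 := h a (mem_insert_self _ _)
    have h2 := ih (fun e he => h e (mem_insert_of_mem he))
    rw [← zpow_natCast, Nat.gcd_eq_gcd_ab, zpow_add, zpow_mul, zpow_mul, zpow_natCast,
      zpow_natCast]
    exact mul_mem (zpow_mem h1 _) (zpow_mem h2 _)

theorem der_two_le (H R : Subgroup G) (hRn : ∀ h ∈ H, ∀ r ∈ R, h * r * h⁻¹ ∈ R)
    {α : Type} (gp : α → G) (hgen : H = Subgroup.closure (Set.range gp))
    (Bad : Finset α) (hgood : ∀ p, p ∉ Bad → gp p ∈ R)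
    (hBad : Bad.card ≤ 1 ∨ (Bad.card = 2 ∧ ∀ p ∈ Bad, gp p ^ 2 ∈ R)) : der H 2 ≤ R := by
  classical
  have hgpH : ∀ p, gp p ∈ H := by
    intro p
    rw [hgen]
    exact Subgroup.subset_closure ⟨p, rfl⟩
  have hN : (R.subgroupOf H).Normal := by
    constructor
    intro r hr h
    rw [Subgroup.mem_subgroupOf] at hr ⊢
    exact hRn h h.2 r hr
  let φ : H →* H ⧸ (R.subgroupOf H) := QuotientGroup.mk' _
  have hφ : ∀ x : H, φ x = 1 ↔ (x : G) ∈ R := by
    intro x
    rw [QuotientGroup.mk'_apply, QuotientGroup.eq_one_iff, Subgroup.mem_subgroupOf]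
  have htop : ∀ K : Subgroup (H ⧸ (R.subgroupOf H)), (∀ p, φ ⟨gp p, hgpH p⟩ ∈ K) → K = ⊤ := by
    intro K hK
    rw [eq_top_iff]
    rintro x -
    obtain ⟨⟨x, hx⟩, rfl⟩ := QuotientGroup.mk'_surjective _ x
    have key : ∀ y : G, y ∈ Subgroup.closure (Set.range gp) → ∀ hy : y ∈ H, φ ⟨y, hy⟩ ∈ K := by
      intro y hy
      induction hy using Subgroup.closure_induction with
      | mem y hy =>
        obtain ⟨p, rfl⟩ := hy
        intro _
        exact hK p
      | one =>
        intro hy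
        have : (⟨1, hy⟩ : H) = 1 := rfl
        rw [this, map_one]
        exact one_mem _
      | mul a b ha hb iha ihb =>
        intro hab
        rw [← hgen] at ha hb
        have : (⟨a * b, hab⟩ : H) = ⟨a, ha⟩ * ⟨b, hb⟩ := rfl
        rw [this, map_mul]
        exact mul_mem (iha ha) (ihb hb)
      | inv a ha iha =>
        intro ha'
        rw [← hgen] at ha
        have : (⟨a⁻¹, ha'⟩ : H) = (⟨a, ha⟩)⁻¹ := rfl
        rw [this, map_inv]
        exact inv_mem (iha ha)
    exact key x (by rw [← hgen]; exact hx) hx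
  have hab : ∃ a b : H ⧸ (R.subgroupOf H), Subgroup.closure {a, b} = ⊤ ∧
      (a * a = 1 ∧ b * b = 1 ∨ a = 1 ∨ b = 1) := by
    rcases hBad with h1 | ⟨h1, h2⟩
    · rcases Bad.eq_empty_or_nonempty with h0 | ⟨p₁, hp₁⟩
      · refine ⟨1, 1, htop _ fun p => ?_, Or.inr (Or.inl rfl)⟩
        have : φ ⟨gp p, hgpH p⟩ = 1 := (hφ _).2 (hgood p (by rw [h0]; simp))
        rw [this]
        exact one_mem _
      · refine ⟨φ ⟨gp p₁, hgpH p₁⟩, 1, htop _ fun p => ?_, Or.inr (Or.inr rfl)⟩
        by_cases hp : p ∈ Bad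
        · have : p = p₁ := Finset.card_le_one.1 h1 p hp p₁ hp₁
          rw [this]
          exact Subgroup.subset_closure (by simp)
        · have : φ ⟨gp p, hgpH p⟩ = 1 := (hφ _).2 (hgood p hp)
          rw [this]
          exact one_mem _
    · obtain ⟨p₁, p₂, -, hB⟩ := Finset.card_eq_two.1 h1
      refine ⟨φ ⟨gp p₁, hgpH p₁⟩, φ ⟨gp p₂, hgpH p₂⟩, htop _ fun p => ?_, Or.inl ⟨?_, ?_⟩⟩
      · by_cases hp : p ∈ Bad
        · rw [hB] at hp
          rcases mem_insert.1 hp with rfl | hp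
          · exact Subgroup.subset_closure (by simp)
          · rw [mem_singleton.1 hp]
            exact Subgroup.subset_closure (by simp)
        · have : φ ⟨gp p, hgpH p⟩ = 1 := (hφ _).2 (hgood p hp)
          rw [this]
          exact one_mem _
      · rw [← map_mul, hφ]
        have := h2 p₁ (by rw [hB]; simp)
        rwa [sq] at this
      · rw [← map_mul, hφ]
        have := h2 p₂ (by rw [hB]; simp)
        rwa [sq] at this
  obtain ⟨a, b, hab1, hab2⟩ := hab
  have hmet := metab_of_dihedral a b hab1 hab2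
  have hcom : ∀ u ∈ ⁅H, H⁆, ∃ hu : u ∈ H, φ ⟨u, hu⟩ ∈ commutator (H ⧸ (R.subgroupOf H)) := by
    intro u hu
    rw [← Subgroup.map_subtype_commutator] at hu
    obtain ⟨u', hu', rfl⟩ := hu
    refine ⟨u'.2, ?_⟩
    have h1 : φ u' ∈ (commutator H).map φ := ⟨u', hu', rfl⟩
    rw [commutator_def, Subgroup.map_commutator] at h1
    exact Subgroup.commutator_mono le_top le_top h1
  change ⁅⁅H, H⁆, ⁅H, H⁆⁆ ≤ R
  rw [Subgroup.commutator_le]
  intro u hu v hv
  obtain ⟨hu1, hu2⟩ := hcom u hu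
  obtain ⟨hv1, hv2⟩ := hcom v hv
  have h1 := hmet _ hu2 _ hv2
  have h2 : φ (⟨u, hu1⟩ * ⟨v, hv1⟩ * (⟨u, hu1⟩ : H)⁻¹ * (⟨v, hv1⟩ : H)⁻¹) = 1 := by
    rw [map_mul, map_mul, map_mul, map_inv, map_inv, h1]
    group
  exact (hφ _).1 h2

end quot

end A3

end PCF
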