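import Pool.Agent.Work.MP_80ff4e_al_56.A3

/-!
# Block A3: `stmt_A3`
-/

set_option autoImplicit false

open Finset hiding sup mem_sup

namespace PCF

open TBlock A3

theorem stmt_A3 : Stmt_A3 := by
  intro G X _ _ T n B hB hcard
  classical
  set S := T.S with hS
  set H := S.StB B with hH
  obtain ⟨w₀, hw₀⟩ := hB.1
  let y₀ : W S n := ⟨w₀, hB.2.1 w₀ hw₀⟩
  have htrans : MulAction.IsPretransitive G (W S n) := by
    constructor
    intro x y
    obtain ⟨k, hk⟩ := T.odo x.1 y.1 (by rw [x.2, y.2])
    exact ⟨T.τ ^ k, Subtype.ext hk⟩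
  -- the projection to the translates of `B`
  have hex : ∀ y : W S n, ∃ g : G, g • y₀ = y := fun y => MulAction.exists_smul_eq G y₀ y
  choose gy hgy using hex
  let pi : W S n → G ⧸ H := fun y => (gy y : G ⧸ H)
  have hHmem : ∀ g : G, g ∈ H ↔ (g • y₀).1 ∈ B := fun g => mem_StB_iff S hB hw₀ g
  have hpi : ∀ (g : G) (y : W S n), pi (g • y) = g • pi y := by
    intro g y
    change (gy (g • y) : G ⧸ H) = ((g * gy y : G) : G ⧸ H)
    rw [QuotientGroup.eq, hHmem]
    have : ((gy (g • y))⁻¹ * (g * gy y)) • y₀ = y₀ := by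
      rw [mul_smul, mul_smul, hgy, inv_smul_eq_iff, hgy]
    rw [this]
    exact hw₀
  have hpi_iff : ∀ (c : G) (y : W S n), pi y = (c : G ⧸ H) ↔ (c⁻¹ • y).1 ∈ B := by
    intro c y
    change (gy y : G ⧸ H) = (c : G ⧸ H) ↔ _
    rw [eq_comm, QuotientGroup.eq, hHmem, mul_smul, hgy]
  have hsurj : Function.Surjective pi := by
    intro z
    obtain ⟨g, rfl⟩ := QuotientGroup.mk_surjective z
    refine ⟨g • y₀, ?_⟩
    rw [hpi_iff, inv_smul_smul]
    exact hw₀
  have hfinZ : Finite (G ⧸ H) := Finite.of_surjective pi hsurj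
  have : Fintype (G ⧸ H) := Fintype.ofFinite _
  -- the generators
  let ι := {z : ℂ // z ∈ T.P}
  let h : ι → G := fun z => T.gen z.1
  have hgen : Subgroup.closure (Set.range h) = ⊤ := by
    rw [← T.gen_top]
    congr 1
    ext g
    constructor
    · rintro ⟨z, rfl⟩
      exact ⟨z.1, z.2, rfl⟩
    · rintro ⟨z, hz, rfl⟩
      exact ⟨⟨z, hz⟩, rfl⟩
  have hlab0 : ∀ z : ι, ∃ π, Labels S T.F T.deg T.In n z.1 (h z) π := fun z =>
    T.labels n z.1 (T.gen z.1) (T.gen_mem z.1 z.2)
  choose lab hlab using hlab0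
  have hfinQY : ∀ i, Fintype (Q G (W S n) (h i)) := fun i => Fintype.ofFinite _
  have hfinQZ : ∀ i, Fintype (Q G (G ⧸ H) (h i)) := fun i => Fintype.ofFinite _
  -- labels and cycles
  have hlab_iff : ∀ (z : ι) (y y' : W S n), lab z y.1 = lab z y'.1 ↔
      (Quotient.mk'' y : Q G (W S n) (h z)) = Quotient.mk'' y' := by
    intro z y y'
    rw [(hlab z).2.2.1 y.1 y'.1 y.2 y'.2, eq_comm]
    constructor
    · rintro ⟨k, hk⟩
      exact (mk_eq_iff _ _ _).2 ⟨k, by rw [zpow_natCast]; exact Subtype.ext hk⟩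
    · intro he
      obtain ⟨j, -, hj⟩ := exists_pow (h z) y' y he
      exact ⟨j, (smul_eq_iff S n _ _ _).1 hj⟩
  have hlab_per : ∀ (z : ι) (y : W S n), T.deg n (lab z y.1) = MulAction.period (h z) y := by
    intro z y
    have key : ∀ j : ℕ, T.deg n (lab z y.1) ∣ j ↔ MulAction.period (h z) y ∣ j := by
      intro j
      rw [← (hlab z).2.2.2.1 y.1 j y.2, ← MulAction.pow_smul_eq_iff_period_dvd,
        smul_eq_iff]
    exact Nat.dvd_antisymm ((key _).2 dvd_rfl) ((key _).1 dvd_rfl)
  have hlab_K : ∀ (z : ι) (y : W S n), lab z y.1 ∉ T.P →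
      (h z) ^ MulAction.period (h z) y ∈ S.K y.1 := by
    intro z y hy
    rw [S.mem_K]
    constructor
    · rw [← smul_val, MulAction.pow_period_smul]
    · have h1 := (hlab z).2.2.2.2 y.1 y.2
      rw [hlab_per] at h1
      exact T.In_triv _ hy _ h1
  -- the tree condition on `W`
  have htreeW : (∑ i, (Nat.card (W S n) - ncyc G (W S n) (h i))) + 1 = Nat.card (W S n) := by
    have hc : ∀ i : ι, ncyc G (W S n) (h i) = (T.fib n i.1).card := by
      intro i
      have h1 : ncyc G (W S n) (h i) = (univ : Finset (Q G (W S n) (h i))).card := by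
        rw [Finset.card_univ, ← Nat.card_eq_fintype_card]
        rfl
      rw [h1]
      apply Finset.card_bij (fun q _ => lab i q.out.1)
      · intro q _
        rw [T.mem_fib]
        exact (hlab i).1 _ q.out.2
      · intro q _ q' _ hq
        have := (hlab_iff i _ _).1 hq
        rwa [Quotient.out_eq', Quotient.out_eq'] at this
      · intro u hu
        rw [T.mem_fib] at hu
        obtain ⟨w, hw, rfl⟩ := (hlab i).2.1 u hu
        refine ⟨Quotient.mk'' (⟨w, hw⟩ : W S n), mem_univ _, ?_⟩
        exact (hlab_iff i _ ⟨w, hw⟩).2 (Quotient.out_eq' _)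
    rw [card_W, Finset.sum_congr rfl (fun i _ => by rw [hc i])]
    rw [Finset.sum_coe_sort T.P (fun z => Fintype.card X ^ n - (T.fib n z).card)]
    exact T.RH n
  have htreeZ := stmt_T3 G (W S n) (G ⧸ H) ι h pi hsurj hpi hgen htreeW
  have heuW := euler h htreeW
  have heuZ := euler h htreeZ
  -- the fibres of `pi`
  set b := B.ncard with hb
  have hfib : ∀ z : G ⧸ H, (univ.filter (fun y : W S n => pi y = z)).card = b := by
    intro z
    obtain ⟨c, rfl⟩ := QuotientGroup.mk_surjective z
    have hBimg : B = (fun y : W S n => (c⁻¹ • y).1) ''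
        ((univ.filter (fun y : W S n => pi y = (c : G ⧸ H)) : Finset (W S n)) : Set (W S n)) := by
      ext w
      constructor
      · intro hw
        let y : W S n := ⟨w, hB.2.1 w hw⟩
        refine ⟨c • y, ?_, ?_⟩
        · rw [mem_coe, mem_filter]
          refine ⟨mem_univ _, ?_⟩
          rw [hpi_iff, inv_smul_smul]
          exact hw
        · change (c⁻¹ • c • y).1 = w
          rw [inv_smul_smul]
      · rintro ⟨y, hy, rfl⟩
        rw [mem_coe, mem_filter] at hy
        exact (hpi_iff c y).1 hy.2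
    have hinj : Function.Injective (fun y : W S n => (c⁻¹ • y).1) := by
      intro y y' hyy
      exact smul_left_cancel c⁻¹ (Subtype.ext hyy)
    rw [hb, hBimg, Set.ncard_image_of_injective _ hinj, Set.ncard_coe_finset]
  have hcardWZ : Nat.card (W S n) = b * Nat.card (G ⧸ H) := by
    rw [Nat.card_eq_fintype_card, Nat.card_eq_fintype_card, ← Finset.card_univ (α := W S n),
      Finset.card_eq_sum_card_fiberwise (f := pi) (t := univ) (fun _ _ => by simp)]
    rw [Finset.sum_congr rfl (fun z _ => hfib z)]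
    simp [mul_comm]
  -- cycles over cycles
  have hmkpi : ∀ (i : ι) (x y : W S n), (Quotient.mk'' x : Q G (W S n) (h i)) = Quotient.mk'' y →
      (Quotient.mk'' (pi x) : Q G (G ⧸ H) (h i)) = Quotient.mk'' (pi y) := by
    intro i x y hxy
    obtain ⟨k, rfl⟩ := (mk_eq_iff _ _ _).1 hxy
    exact (mk_eq_iff _ _ _).2 ⟨k, by rw [hpi]⟩
  let pr : E (W S n) h → E (G ⧸ H) h := fun e => ⟨e.1, Quotient.mk'' (pi e.2.out)⟩
  have hpr : ∀ (i : ι) (y : W S n), pr ⟨i, Quotient.mk'' y⟩ = ⟨i, Quotient.mk'' (pi y)⟩ := by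
    intro i y
    change (⟨i, _⟩ : E (G ⧸ H) h) = _
    congr 1
    exact hmkpi i _ _ (Quotient.out_eq' _)
  have hdvd : ∀ e : E (W S n) h, (TBlock.sup h (pr e)).card ∣ (TBlock.sup h e).card := by
    rintro ⟨i, q⟩
    induction q using Quotient.inductionOn' with
    | h y =>
      rw [hpr, card_sup, card_sup, ← MulAction.pow_smul_eq_iff_period_dvd, ← hpi,
        MulAction.pow_period_smul]
  have hsupZ : ∀ p : E (G ⧸ H) h, 0 < (TBlock.sup h p).card := fun p => sup_pos h p
  let f : E (W S n) h → ℕ := fun e => (TBlock.sup h e).card / (TBlock.sup h (pr e)).card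
  have hf : ∀ e, 1 ≤ f e := fun e => Nat.div_pos (Nat.le_of_dvd (sup_pos h e) (hdvd e)) (hsupZ _)
  have hfmul : ∀ e, (TBlock.sup h (pr e)).card * f e = (TBlock.sup h e).card := fun e =>
    Nat.mul_div_cancel' (hdvd e)
  have hsumf : ∀ p : E (G ⧸ H) h, ∑ e ∈ univ.filter (fun e => pr e = p), f e = b := by
    intro p
    have h1 : (TBlock.sup h p).card * ∑ e ∈ univ.filter (fun e => pr e = p), f e =
        ∑ e ∈ univ.filter (fun e => pr e = p), (TBlock.sup h e).card := by
      rw [Finset.mul_sum]
      refine Finset.sum_congr rfl fun e he => ?_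
      rw [← hfmul e, (mem_filter.1 he).2]
    let A : Finset (W S n) := univ.filter
      (fun y => (Quotient.mk'' (pi y) : Q G (G ⧸ H) (h p.1)) = p.2)
    have h2 : A.card = (TBlock.sup h p).card * b := by
      rw [Finset.card_eq_sum_card_fiberwise (f := pi) (t := TBlock.sup h p) (fun y hy => by
        rw [mem_coe, mem_filter] at hy
        rw [mem_coe, TBlock.mem_sup]
        exact hy.2)]
      have : ∀ z ∈ TBlock.sup h p, (A.filter (fun y => pi y = z)).card = b := by
        intro z hz
        rw [← hfib z]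
        congr 1
        ext y
        rw [mem_filter, mem_filter, mem_filter]
        rw [TBlock.mem_sup] at hz
        constructor
        · rintro ⟨-, h3⟩
          exact ⟨mem_univ _, h3⟩
        · rintro ⟨-, h3⟩
          exact ⟨⟨mem_univ _, by rw [h3]; exact hz⟩, h3⟩
      rw [Finset.sum_congr rfl this]
      simp
    have h3 : A.card = ∑ e ∈ univ.filter (fun e => pr e = p), (TBlock.sup h e).card := by
      rw [Finset.card_eq_sum_card_fiberwise
        (f := fun y => (⟨p.1, Quotient.mk'' y⟩ : E (W S n) h))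
        (t := univ.filter (fun e => pr e = p)) (fun y hy => by
          rw [mem_coe, mem_filter] at hy
          rw [mem_coe, mem_filter]
          refine ⟨mem_univ _, ?_⟩
          rw [hpr]
          obtain ⟨i, q⟩ := p
          simp only at hy ⊢
          rw [hy.2])]
      refine Finset.sum_congr rfl fun e he => ?_
      obtain ⟨i, q⟩ := p
      obtain ⟨j, r⟩ := e
      rw [mem_filter] at he
      have hij : j = i := congrArg Sigma.fst he.2
      subst hij
      congr 1
      ext y
      rw [mem_filter, mem_filter, TBlock.mem_sup]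
      constructor
      · rintro ⟨-, h4⟩
        exact eq_of_heq (Sigma.mk.inj h4).2
      · intro h4
        simp only at h4
        refine ⟨⟨mem_univ _, ?_⟩, ?_⟩
        · have h5 := he.2
          rw [← h4, hpr] at h5
          exact eq_of_heq (Sigma.mk.inj h5).2
        · rw [h4]
    have h4 : (TBlock.sup h p).card * ∑ e ∈ univ.filter (fun e => pr e = p), f e =
        (TBlock.sup h p).card * b := by rw [h1, ← h3, h2]
    exact Nat.eq_of_mul_eq_mul_left (hsupZ p) h4
  -- labels of the cycles
  let lam : E (W S n) h → ℂ := fun e => lab e.1 e.2.out.1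
  have hlam : ∀ (i : ι) (y : W S n), lam ⟨i, Quotient.mk'' y⟩ = lab i y.1 := by
    intro i y
    exact (hlab_iff i _ y).2 (Quotient.out_eq' _)
  have hlaminj : Function.Injective lam := by
    rintro ⟨i, q⟩ ⟨j, r⟩ he
    induction q using Quotient.inductionOn' with
    | h y =>
      induction r using Quotient.inductionOn' with
      | h y' =>
        rw [hlam, hlam] at he
        have h1 := (hlab i).1 y.1 y.2
        have h2 := (hlab j).1 y'.1 y'.2
        rw [he, h2] at h1
        have hij : j = i := Subtype.ext h1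
        subst hij
        rw [(hlab_iff j y y').1 he]
  let Ps : Finset (E (W S n) h) := univ.filter (fun e => lam e ∈ T.P)
  have hPs : Ps.card ≤ T.P.card := by
    apply Finset.card_le_card_of_injOn lam
    · intro e he
      exact (mem_filter.1 he).2
    · exact hlaminj.injOn
  have hcomb := comb pr f hf Ps T.P.card b hPs hsumf (by
    have hi : Fintype.card ι = T.P.card := by simp [ι]
    rw [hi] at heuW heuZ
    have e1 : b * (T.P.card * Nat.card (G ⧸ H) + 1) =
        b * (Nat.card (G ⧸ H) + Fintype.card (E (G ⧸ H) h)) := by rw [heuZ]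
    rw [mul_add, mul_add, ← mul_assoc, mul_comm b T.P.card, mul_assoc, ← hcardWZ, mul_one] at e1
    omega) hcard
  -- the generators of the stabiliser
  obtain ⟨c, hc1, hc2⟩ := stmt_T1 G (G ⧸ H) ι h hgen htreeZ ((1 : G) : G ⧸ H)
  rw [MulAction.stabilizer_quotient] at hc2
  let gp : E (G ⧸ H) h → G := fun p => c p.1 p.2 *
    (h p.1) ^ (MulAction.period (h p.1) ((c p.1 p.2)⁻¹ • ((1 : G) : G ⧸ H))) * (c p.1 p.2)⁻¹
  have hgpgen : H = Subgroup.closure (Set.range gp) := by
    refine hc2.trans ?_
    congr 1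
    ext g
    constructor
    · rintro ⟨i, p, rfl⟩
      exact ⟨⟨i, p⟩, rfl⟩
    · rintro ⟨⟨i, p⟩, rfl⟩
      exact ⟨i, p, rfl⟩
  set R : Subgroup G := ⨆ w : B, S.K w.1 with hR
  have hKR : ∀ w ∈ B, S.K w ≤ R := fun w hw => le_iSup (fun w : B => S.K w.1) ⟨w, hw⟩
  have hRn : ∀ g ∈ H, ∀ r ∈ R, g * r * g⁻¹ ∈ R := by
    intro g hg r hr
    have h1 : R ≤ R.comap (MulAut.conj g).toMonoidHom := by
      rw [hR]
      apply iSup_le
      rintro ⟨w, hw⟩
      intro k hk
      rw [Subgroup.mem_comap]
      exact hKR (S.wact g w) ((hg w).2 hw) (conj_K S hk)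
    exact h1 hr
  -- powers of the generators in `R`
  have hpow : ∀ e : E (W S n) h, e ∉ Ps → gp (pr e) ^ f e ∈ R := by
    rintro ⟨i, q⟩
    induction q using Quotient.inductionOn' with
    | h y =>
      intro he
      rw [hpr]
      set q : Q G (G ⧸ H) (h i) := Quotient.mk'' (pi y) with hq
      -- choose a representative
      obtain ⟨k, hk⟩ := (mk_eq_iff _ _ _).1 (hc1 i q)
      let y' : W S n := (h i) ^ k • y
      have hy' : (Quotient.mk'' y' : Q G (W S n) (h i)) = Quotient.mk'' y :=
        (mk_eq_iff _ _ _).2 ⟨k, rfl⟩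
      have hpiy' : pi y' = (((c i q)⁻¹ : G) : G ⧸ H) := by
        rw [hpi, hk]
        change (((c i q)⁻¹ * 1 : G) : G ⧸ H) = _
        rw [mul_one]
      have hmem : (c i q • y').1 ∈ B := by
        have := (hpi_iff _ _).1 hpiy'
        rwa [inv_inv] at this
      have hlabP : lab i y'.1 ∉ T.P := by
        intro hcon
        apply he
        rw [mem_filter]
        refine ⟨mem_univ _, ?_⟩
        rw [← hy', hlam]
        exact hcon
      have hK := hlab_K i y' hlabP
      have h1 : gp ⟨i, q⟩ ^ f ⟨i, Quotient.mk'' y⟩ =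
          c i q * (h i) ^ MulAction.period (h i) y' * (c i q)⁻¹ := by
        have e1 : MulAction.period (h i) ((c i q)⁻¹ • ((1 : G) : G ⧸ H)) =
            (TBlock.sup h (pr ⟨i, Quotient.mk'' y⟩)).card := by
          have e3 := card_sup h i ((c i q)⁻¹ • ((1 : G) : G ⧸ H))
          rw [hc1] at e3
          rw [hpr, ← hq]
          exact e3.symm
        have e2 : MulAction.period (h i) y' =
            (TBlock.sup h (⟨i, Quotient.mk'' y⟩ : E (W S n) h)).card := by
          rw [← hy', card_sup]
        change (c i q * (h i) ^ (MulAction.period (h i) ((c i q)⁻¹ • ((1 : G) : G ⧸ H))) *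
          (c i q)⁻¹) ^ f ⟨i, Quotient.mk'' y⟩ = _
        rw [conj_pow, ← pow_mul, e1, hfmul, e2]
      rw [h1]
      exact hKR _ hmem (conj_K S hK)
  have hep : ∀ p : E (G ⧸ H) h, gp p ^ ep pr f Ps p ∈ R := by
    intro p
    apply pow_gcd_mem
    intro e he
    rw [mem_filter] at he
    have := hpow e he.2.2
    rwa [he.2.1] at this
  apply der_two_le H R hRn gp hgpgen (univ.filter (fun p => ep pr f Ps p ≠ 1))
  · intro p hp
    have h1 : ep pr f Ps p = 1 := by
      by_contra hne
      exact hp (mem_filter.2 ⟨mem_univ _, hne⟩)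
    have := hep p
    rwa [h1, pow_one] at this
  · rcases hcomb with h1 | ⟨h1, h2⟩
    · exact Or.inl h1
    · right
      refine ⟨h1, fun p hp => ?_⟩
      have := hep p
      rwa [h2 p hp] at this

end PCF
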