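import Pool.Agent.Work.MP_80ff4e_al.Interface4

/-!
Block CT: Chebyshev polynomials and exchanging the factors.
-/

set_option autoImplicit false

open Polynomial

namespace PCF

namespace CT56

/-- cancel a right factor -/
theorem comp_cancel {p q r : ℂ[X]} (hr : 1 ≤ r.natDegree) (h : p.comp r = q.comp r) : p = q := by
  have h1 : (p - q).comp r = 0 := by rw [sub_comp, h, sub_self]
  rw [comp_eq_zero_iff] at h1
  rcases h1 with h1 | ⟨_, h2⟩
  · exact sub_eq_zero.1 h1
  · exfalso
    rw [h2, natDegree_C] at hr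
    omega

theorem natDegree_lin {a b : ℂ} (ha : a ≠ 0) : (C a * X + C b : ℂ[X]).natDegree = 1 :=
  natDegree_linear ha

theorem lin_comp (a b : ℂ) (p : ℂ[X]) : (C a * X + C b : ℂ[X]).comp p = C a * p + C b := by simp

theorem natDegree_epsT {ε : ℂ} (hε : ε = 1 ∨ ε = -1) (n : ℕ) :
    (C ε * Polynomial.Chebyshev.T ℂ n).natDegree = n := by
  have hε0 : ε ≠ 0 := by rcases hε with rfl | rfl <;> norm_num
  rw [natDegree_C_mul hε0, Polynomial.Chebyshev.natDegree_T]
  simp

/-- `T_A (ε w) = ε' T_A w` -/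
theorem T_comp_eps {ε : ℂ} (hε : ε = 1 ∨ ε = -1) (n : ℕ) (q : ℂ[X]) :
    ∃ ε' : ℂ, (ε' = 1 ∨ ε' = -1) ∧ (Polynomial.Chebyshev.T ℂ n).comp (C ε * q) =
      C ε' * (Polynomial.Chebyshev.T ℂ n).comp q := by
  rcases hε with rfl | rfl
  · exact ⟨1, Or.inl rfl, by simp⟩
  · rcases Nat.even_or_odd n with h | h
    · refine ⟨1, Or.inl rfl, ?_⟩
      apply Polynomial.funext
      intro x
      have := Polynomial.Chebyshev.T_eval_neg (R := ℂ) n (q.eval x)
      rw [Int.negOnePow_even _ (by exact_mod_cast h)] at this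
      simpa using this
    · refine ⟨-1, Or.inr rfl, ?_⟩
      apply Polynomial.funext
      intro x
      have := Polynomial.Chebyshev.T_eval_neg (R := ℂ) n (q.eval x)
      rw [Int.negOnePow_odd _ (by exact_mod_cast h)] at this
      simpa using this

end CT56

open CT56 in
/-- BLOCK CT -/
theorem stmt_CT (hPA1 : Stmt_PA1) : Stmt_CT := by
  intro α u hα hu hc
  obtain ⟨a, b, ε, ha, hε, h⟩ := hc
  set A := α.natDegree with hA
  set n := u.natDegree with hn
  have hd : (u.comp α).natDegree = n * A := natDegree_comp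
  have hd' : (α.comp u).natDegree = A * n := natDegree_comp
  rw [hd] at h
  set L : ℂ[X] := C a * X + C b with hL
  have hL1 : L.natDegree = 1 := natDegree_lin ha
  -- decompose
  have hT : Polynomial.Chebyshev.T ℂ ((n * A : ℕ) : ℤ) =
      (Polynomial.Chebyshev.T ℂ n).comp (Polynomial.Chebyshev.T ℂ A) := by
    rw [Nat.cast_mul, Polynomial.Chebyshev.T_mul]
  have hT' : Polynomial.Chebyshev.T ℂ ((A * n : ℕ) : ℤ) =
      (Polynomial.Chebyshev.T ℂ A).comp (Polynomial.Chebyshev.T ℂ n) := by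
    rw [Nat.cast_mul, Polynomial.Chebyshev.T_mul]
  have hTA : (Polynomial.Chebyshev.T ℂ A).natDegree = A := by
    rw [Polynomial.Chebyshev.natDegree_T]; simp
  have hTn : (C ε * Polynomial.Chebyshev.T ℂ n).natDegree = n := natDegree_epsT hε n
  have e1 : (L.comp (C ε * Polynomial.Chebyshev.T ℂ n)).comp (Polynomial.Chebyshev.T ℂ A) =
      u.comp (α.comp L) := by
    rw [← comp_assoc, h, hT, comp_assoc, mul_comp, C_comp]
  have hdeg : (Polynomial.Chebyshev.T ℂ A).natDegree = (α.comp L).natDegree := by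
    rw [hTA, natDegree_comp, hL1, mul_one]
  obtain ⟨a', b', ha', hab⟩ := hPA1 _ _ _ _ e1 hdeg (by rw [hTA]; exact hα)
    (by rw [natDegree_comp, hL1, one_mul, hTn]; exact hu)
  set K : ℂ[X] := C a' * X + C b' with hK
  have hK1 : K.natDegree = 1 := natDegree_lin ha'
  have e2 : α.comp L = K.comp (Polynomial.Chebyshev.T ℂ A) := by
    rw [hab, hK, lin_comp]
  have e3 : L.comp (C ε * Polynomial.Chebyshev.T ℂ n) = u.comp K := by
    apply comp_cancel (r := Polynomial.Chebyshev.T ℂ A) (by rw [hTA]; exact hα)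
    rw [e1, e2, comp_assoc]
  obtain ⟨ε', hε', e4⟩ := T_comp_eps hε A (Polynomial.Chebyshev.T ℂ n)
  refine ⟨a', b', ε', ha', hε', ?_⟩
  rw [hd', hT', ← e4, comp_assoc, ← hK, ← e3, ← comp_assoc, e2, comp_assoc]

end PCF
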