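import Pool.Agent.Work.MP_80ff4e_al.Interface4

/-!
Block MV: moving a totally ramified factor of prime degree.
-/

set_option autoImplicit false

open Polynomial

namespace PCF

namespace MV56

/-- full ramification at a point -/
theorem total_ram {p : ℕ} (hp : 1 ≤ p) {B : ℂ[X]} (hB : B.natDegree = p) {c : ℂ}
    (h : ldeg B c = p) : ∃ α : ℂ, α ≠ 0 ∧ B = C α * (X - C c) ^ p + C (B.eval c) := by
  have hne : B - C (B.eval c) ≠ 0 := by
    intro h0
    have := congrArg natDegree h0
    rw [natDegree_sub_C, natDegree_zero] at this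
    omega
  obtain ⟨q, hq⟩ := pow_rootMultiplicity_dvd (B - C (B.eval c)) c
  rw [show rootMultiplicity c (B - C (B.eval c)) = p from h] at hq
  have hq0 : q ≠ 0 := by
    rintro rfl
    rw [mul_zero] at hq
    exact hne hq
  have hd := congrArg natDegree hq
  rw [natDegree_sub_C, natDegree_mul (pow_ne_zero _ (X_sub_C_ne_zero c)) hq0, natDegree_pow,
    natDegree_X_sub_C, hB] at hd
  have hq1 : q.natDegree = 0 := by omega
  obtain ⟨α, rfl⟩ := natDegree_eq_zero.1 hq1
  refine ⟨α, ?_, ?_⟩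
  · rintro rfl
    exact hq0 C_0
  · rw [mul_comm, ← hq]; ring

theorem part1 (hL : Stmt_L) (p : ℕ) (X₁ Y B : ℂ[X]) (hp : p.Prime) (hB : B.natDegree = p)
    (hX : ¬ p ∣ X₁.natDegree) (h : X₁ ^ p = Y.comp B) :
    ∃ α β c : ℂ, α ≠ 0 ∧ B = C α * (X - C c) ^ p + C β ∧ X₁.eval c = 0 := by
  obtain ⟨-, -, -, hfib, hsum, hpos, -, hcomp, -⟩ := hL
  have hp0 : 0 < p := hp.pos
  have hB1 : 1 ≤ B.natDegree := by rw [hB]; exact hp0
  have hd := congrArg natDegree h
  rw [natDegree_pow, natDegree_comp, hB, mul_comm] at hd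
  have hd' : X₁.natDegree = Y.natDegree := Nat.eq_of_mul_eq_mul_right hp0 hd
  have hX1 : 1 ≤ X₁.natDegree := by
    by_contra h0
    apply hX
    rw [show X₁.natDegree = 0 by omega]
    exact dvd_zero p
  have hY1 : 1 ≤ Y.natDegree := by omega
  have hX0 : X₁ ≠ 0 := by rintro rfl; simp at hX1
  -- a zero `β` of `Y` of multiplicity prime to `p`
  have : ∃ β ∈ fibre Y 0, ¬ p ∣ ldeg Y β := by
    by_contra hcon
    push Not at hcon
    apply hX
    rw [hd', ← hsum Y hY1 0]
    exact Finset.dvd_sum hcon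
  obtain ⟨β, hβ, hβp⟩ := this
  rw [hfib Y hY1] at hβ
  -- a point `c` over `β`
  obtain ⟨c, hc⟩ : ∃ c, B.eval c = β := by
    have : (B - C β).degree ≠ 0 := by
      intro h0
      have := natDegree_eq_of_degree_eq_some (n := 0) h0
      rw [natDegree_sub_C] at this
      omega
    obtain ⟨c, hc⟩ := IsAlgClosed.exists_root _ this
    exact ⟨c, by rw [IsRoot.def, eval_sub, eval_C, sub_eq_zero] at hc; exact hc⟩
  have hXc : X₁.eval c = 0 := by
    have := congrArg (eval c) h
    rw [eval_pow, eval_comp, hc, hβ] at this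
    exact pow_eq_zero_iff hp0.ne' |>.1 this
  have h1 : ldeg (Y.comp B) c = p * X₁.rootMultiplicity c := by
    unfold ldeg
    rw [eval_comp, hc, hβ, C_0, sub_zero, ← h, ← count_roots, roots_pow, Multiset.count_nsmul,
      count_roots]
  have h2 := hcomp Y B hY1 hB1 c
  rw [hc, h1] at h2
  have h3 : p ∣ ldeg B c := by
    have : p ∣ ldeg Y β * ldeg B c := ⟨_, h2.symm⟩
    exact (hp.dvd_mul.1 this).resolve_left hβp
  have h4 : ldeg B c ≤ p := by
    have := Finset.single_le_sum (f := fun u => ldeg B u) (fun u _ => Nat.zero_le _)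
      ((hfib B hB1 (B.eval c) c).2 rfl)
    rw [hsum B hB1, hB] at this
    exact this
  have h5 : ldeg B c = p := le_antisymm h4 (Nat.le_of_dvd (hpos B hB1 c) h3)
  obtain ⟨α, hα, hBα⟩ := total_ram hp0 hB h5
  exact ⟨α, B.eval c, c, hα, hBα, hXc⟩

theorem part2 (hPA1 : Stmt_PA1) (p : ℕ) (X₁ Y B : ℂ[X]) (hp : p.Prime) (hB : B.natDegree = p)
    (hX : ¬ p ∣ X₁.natDegree) (h : B.comp X₁ = Y.comp (X ^ p)) :
    ∃ α β : ℂ, α ≠ 0 ∧ B = C α * (X - C (X₁.eval 0)) ^ p + C β := by
  have hp0 : 0 < p := hp.pos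
  have hB1 : 1 ≤ B.natDegree := by rw [hB]; exact hp0
  have hX1 : 1 ≤ X₁.natDegree := by
    by_contra h0
    apply hX
    rw [show X₁.natDegree = 0 by omega]
    exact dvd_zero p
  set ω : ℂ := Complex.exp (2 * Real.pi * Complex.I / p) with hω
  have hprim : IsPrimitiveRoot ω p := Complex.isPrimitiveRoot_exp p hp0.ne'
  have hω0 : ω ≠ 0 := hprim.ne_zero hp0.ne'
  set Xω : ℂ[X] := X₁.comp (C ω * X) with hXω
  have hlin : (C ω * X : ℂ[X]).natDegree = 1 := natDegree_C_mul_X ω hω0
  have e1 : B.comp X₁ = B.comp Xω := by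
    rw [hXω, ← comp_assoc, h, comp_assoc, X_pow_comp, mul_pow, ← C_pow, hprim.pow_eq_one, C_1,
      one_mul]
  have hdeg : X₁.natDegree = Xω.natDegree := by rw [hXω, natDegree_comp, hlin, mul_one]
  obtain ⟨lam, mu, hlam, hlm⟩ := hPA1 _ _ _ _ e1 hdeg hX1 hB1
  -- leading coefficients
  have hlead : lam = ω ^ X₁.natDegree := by
    have h1 : Xω.coeff X₁.natDegree = ω ^ X₁.natDegree * X₁.leadingCoeff := by
      rw [hXω, comp_C_mul_X_coeff, mul_comm]
      rfl
    have h2 : Xω.coeff X₁.natDegree = lam * X₁.leadingCoeff := by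
      rw [hlm, coeff_add, coeff_C_mul, coeff_C, if_neg (by omega), add_zero]
      rfl
    have h3 : X₁.leadingCoeff ≠ 0 := by
      rw [Ne, leadingCoeff_eq_zero]
      rintro rfl
      simp at hX1
    exact mul_right_cancel₀ h3 (h2.symm.trans h1)
  have hlamprim : IsPrimitiveRoot lam p := by
    rw [hlead]
    exact hprim.pow_of_coprime _ ((Nat.coprime_comm.1 ((hp.coprime_iff_not_dvd).2 hX)))
  have h0 : X₁.eval 0 = lam * X₁.eval 0 + mu := by
    have := congrArg (eval 0) hlm
    rw [hXω] at this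
    simpa using this
  set x₀ := X₁.eval 0 with hx₀
  -- `Q w = B (x₀ + w)`
  set Q : ℂ[X] := B.comp (X + C x₀) with hQ
  have hQd : Q.natDegree = p := by rw [hQ, natDegree_comp, natDegree_X_add_C, mul_one, hB]
  have hQinv : Q.comp (C lam * X) = Q := by
    apply Polynomial.funext
    intro w
    obtain ⟨z, hz⟩ : ∃ z, X₁.eval z = x₀ + w := by
      have : (X₁ - C (x₀ + w)).degree ≠ 0 := by
        intro h0
        have := natDegree_eq_of_degree_eq_some (n := 0) h0
        rw [natDegree_sub_C] at this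
        omega
      obtain ⟨c, hc⟩ := IsAlgClosed.exists_root _ this
      exact ⟨c, by rw [IsRoot.def, eval_sub, eval_C, sub_eq_zero] at hc; exact hc⟩
    have h1 := congrArg (eval z) e1
    rw [eval_comp, eval_comp, hlm, hz] at h1
    simp only [eval_add, eval_mul, eval_C, hz] at h1
    rw [hQ]
    simp only [eval_comp, eval_add, eval_mul, eval_C, eval_X]
    rw [show w + x₀ = x₀ + w by ring, h1]
    congr 1
    linear_combination h0
  have hcoef : ∀ i, i ≠ 0 → i < p → Q.coeff i = 0 := by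
    intro i hi hip
    have h1 := congrArg (fun q => q.coeff i) hQinv
    simp only [comp_C_mul_X_coeff] at h1
    by_contra hne
    have h2 : lam ^ i = 1 := by
      have : Q.coeff i * lam ^ i = Q.coeff i * 1 := by rw [mul_one]; exact h1
      exact mul_left_cancel₀ hne this
    have h3 := hlamprim.dvd_of_pow_eq_one i h2
    exact absurd (Nat.le_of_dvd (Nat.pos_of_ne_zero hi) h3) (not_le.2 hip)
  have hQform : Q = C (Q.coeff p) * X ^ p + C (Q.coeff 0) := by
    ext i
    rw [coeff_add, coeff_C_mul, coeff_X_pow, coeff_C]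
    by_cases h1 : i = p
    · subst h1
      simp [hp0.ne']
    · by_cases h2 : i = 0
      · subst h2
        simp [hp0.ne]
      · rw [if_neg h1, if_neg h2, mul_zero, add_zero]
        by_cases h3 : i < p
        · exact hcoef i h2 h3
        · exact coeff_eq_zero_of_natDegree_lt (by omega)
  refine ⟨Q.coeff p, Q.coeff 0, ?_, ?_⟩
  · intro h1
    have : Q.leadingCoeff = 0 := by rw [leadingCoeff, hQd, h1]
    rw [leadingCoeff_eq_zero] at this
    rw [this, natDegree_zero] at hQd
    omega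
  · have h1 : Q.comp (X - C x₀) = B := by
      rw [hQ, comp_assoc]
      simp
    rw [← h1]
    conv_lhs => rw [hQform]
    simp only [add_comp, mul_comp, C_comp, X_pow_comp]

end MV56

/-- BLOCK MV -/
theorem stmt_MV (hL : Stmt_L) (hPA1 : Stmt_PA1) : Stmt_MV :=
  ⟨fun p X₁ Y B hp hB hX h => MV56.part1 hL p X₁ Y B hp hB hX h,
    fun p X₁ Y B hp hB hX h => MV56.part2 hPA1 p X₁ Y B hp hB hX h⟩

end PCF
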