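import Pool.Agent.Work.MP_80ff4e_al.Interface

/-!
# Block PA: PA1
-/

set_option autoImplicit false

open Polynomial

namespace PCF

theorem PA1_core (A B A₁ R : ℂ[X]) (h : A.comp B = A₁.comp (B + R)) (hR : R.degree < B.degree)
    (hB : 1 ≤ B.natDegree) (hA : 1 ≤ A.natDegree) : R.natDegree = 0 := by
  by_cases hR0 : R = 0
  · rw [hR0, natDegree_zero]
  set b := B.natDegree with hb
  set a := A.natDegree with ha
  have hB0 : B ≠ 0 := by rintro rfl; simp at hb; omega
  have hBRd : (B + R).natDegree = b := by
    rw [natDegree_add_eq_left_of_degree_lt hR]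
  have hBRl : (B + R).leadingCoeff = B.leadingCoeff := leadingCoeff_add_of_degree_lt' hR
  have hA₁ : A₁.natDegree = a := by
    have h1 := congrArg natDegree h
    rw [natDegree_comp, natDegree_comp, hBRd] at h1
    exact (Nat.eq_of_mul_eq_mul_right (by omega) h1).symm
  have hlB : B.leadingCoeff ≠ 0 := leadingCoeff_ne_zero.2 hB0
  have hll : A.leadingCoeff = A₁.leadingCoeff := by
    have h1 := congrArg leadingCoeff h
    rw [leadingCoeff_comp (by omega), leadingCoeff_comp (by omega), hA₁, hBRl] at h1
    exact mul_right_cancel₀ (pow_ne_zero _ hlB) h1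
  have hlA : A.leadingCoeff ≠ 0 := by
    apply leadingCoeff_ne_zero.2
    rintro rfl
    simp at ha
    omega
  -- the telescoping sum
  set S : ℂ[X] := ∑ i ∈ Finset.range a, (B + R) ^ i * B ^ (a - 1 - i) with hS
  have hSR : S * R = (B + R) ^ a - B ^ a := by
    have := geom_sum₂_mul (B + R) B a
    rw [← this, add_sub_cancel_left]
  have hSc : S.coeff ((a - 1) * b) = a * B.leadingCoeff ^ (a - 1) := by
    rw [hS, finsetSum_coeff]
    have : ∀ i ∈ Finset.range a, ((B + R) ^ i * B ^ (a - 1 - i)).coeff ((a - 1) * b) =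
        B.leadingCoeff ^ (a - 1) := by
      intro i hi
      have hi' := Finset.mem_range.1 hi
      have h1 : (a - 1) * b = i * b + (a - 1 - i) * b := by
        rw [← add_mul]
        congr 1
        omega
      rw [h1, coeff_mul_add_eq_of_natDegree_le (by rw [← hBRd]; exact natDegree_pow_le)
        (natDegree_pow_le)]
      have h2 : ((B + R) ^ i).coeff (i * b) = B.leadingCoeff ^ i := by
        rw [← hBRd, coeff_pow_mul_natDegree, hBRl]
      have h3 : (B ^ (a - 1 - i)).coeff ((a - 1 - i) * b) = B.leadingCoeff ^ (a - 1 - i) := by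
        rw [hb, coeff_pow_mul_natDegree]
      rw [h2, h3, ← pow_add]
      congr 1
      omega
    rw [Finset.sum_congr rfl this]
    simp
  have hSc0 : S.coeff ((a - 1) * b) ≠ 0 := by
    rw [hSc]
    exact mul_ne_zero (by exact_mod_cast (by omega : a ≠ 0)) (pow_ne_zero _ hlB)
  have hSd : (a - 1) * b ≤ S.natDegree := le_natDegree_of_ne_zero hSc0
  have hS0 : S ≠ 0 := by rintro h0; rw [h0] at hSc0; simp at hSc0
  -- upper bound of the degree
  have hup : ((B + R) ^ a - B ^ a).natDegree ≤ (a - 1) * b := by
    have h1 : C A.leadingCoeff * ((B + R) ^ a - B ^ a) =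
        A.eraseLead.comp B - A₁.eraseLead.comp (B + R) := by
      have e1 : A.comp B = A.eraseLead.comp B + C A.leadingCoeff * B ^ a := by
        have := congrArg (fun q : ℂ[X] => q.comp B) (eraseLead_add_C_mul_X_pow A)
        simp only [add_comp, mul_comp, C_comp, pow_comp, X_comp] at this
        rw [← ha] at this
        exact this.symm
      have e2 : A₁.comp (B + R) = A₁.eraseLead.comp (B + R) + C A.leadingCoeff * (B + R) ^ a := by
        have := congrArg (fun q : ℂ[X] => q.comp (B + R)) (eraseLead_add_C_mul_X_pow A₁)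
        simp only [add_comp, mul_comp, C_comp, pow_comp, X_comp] at this
        rw [hA₁, ← hll] at this
        exact this.symm
      rw [e1, e2] at h
      linear_combination -h
    have h2 : (C A.leadingCoeff * ((B + R) ^ a - B ^ a)).natDegree =
        ((B + R) ^ a - B ^ a).natDegree := natDegree_C_mul hlA
    rw [← h2, h1]
    refine (natDegree_sub_le _ _).trans (max_le ?_ ?_)
    · rw [natDegree_comp]
      exact Nat.mul_le_mul_right _ (eraseLead_natDegree_le A)
    · rw [natDegree_comp, hBRd]
      refine Nat.mul_le_mul_right _ ?_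
      have := eraseLead_natDegree_le A₁
      rwa [hA₁] at this
  rw [← hSR, natDegree_mul hS0 hR0] at hup
  omega

theorem stmt_PA1 : Stmt_PA1 := by
  intro A B A' B' h hd hB hA
  have hB0 : B ≠ 0 := by rintro rfl; simp at hB
  have hB'0 : B' ≠ 0 := by rintro rfl; rw [hd] at hB; simp at hB
  set α : ℂ := B'.leadingCoeff / B.leadingCoeff with hα
  have hlB : B.leadingCoeff ≠ 0 := leadingCoeff_ne_zero.2 hB0
  have hlB' : B'.leadingCoeff ≠ 0 := leadingCoeff_ne_zero.2 hB'0
  have hα0 : α ≠ 0 := div_ne_zero hlB' hlB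
  have hCαd : (C α * B).degree = B'.degree := by
    rw [degree_C_mul hα0, degree_eq_natDegree hB0, degree_eq_natDegree hB'0, hd]
  have hRd : (B' - C α * B).degree < B.degree := by
    have := degree_sub_lt_left hCαd.symm hB'0 (by
      rw [leadingCoeff_mul, leadingCoeff_C, hα, div_mul_cancel₀ _ hlB])
    rwa [degree_eq_natDegree hB'0, ← hd, ← degree_eq_natDegree hB0] at this
  have hcore := PA1_core A B (A'.comp (C α * X)) (C α⁻¹ * (B' - C α * B)) (by
    rw [h, comp_assoc]
    congr 1
    have : C α * C α⁻¹ = (1 : ℂ[X]) := by rw [← C_mul, mul_inv_cancel₀ hα0, C_1]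
    simp only [mul_comp, C_comp, X_comp]
    linear_combination (-(B' - C α * B)) * this) (by
    rw [degree_C_mul (inv_ne_zero hα0)]
    exact hRd) hB hA
  rw [natDegree_C_mul (inv_ne_zero hα0)] at hcore
  refine ⟨α, (B' - C α * B).coeff 0, hα0, ?_⟩
  rw [← eq_C_of_natDegree_eq_zero hcore]
  ring

end PCF
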