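import Pool.Agent.Work.MP_80ff4e_al.Interface

/-!
# Block PA: PA3
-/

set_option autoImplicit false

open Polynomial

namespace PCF

namespace PA3

/-- uniqueness for the Chebyshev equation in degree smaller than `d`. -/
theorem ode_unique (d : ℕ) (h : ℂ[X])
    (ho : (1 - X ^ 2) * derivative (derivative h) = X * derivative h - C ((d : ℂ) ^ 2) * h)
    (hd : h.natDegree < d) : h = 0 := by
  by_contra hne
  set m := h.natDegree with hm
  have h1 := congrArg (fun q : ℂ[X] => q.coeff m) ho
  simp only [coeff_sub, sub_mul, one_mul, coeff_C_mul] at h1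
  have e0 : (derivative (derivative h)).coeff m = 0 := by
    rw [coeff_derivative, coeff_derivative, coeff_eq_zero_of_natDegree_lt (by omega)]
    ring
  have e1 : (X ^ 2 * derivative (derivative h)).coeff m = (m : ℂ) * (m - 1) * h.coeff m := by
    rw [coeff_X_pow_mul']
    split_ifs with h2
    · rw [coeff_derivative, coeff_derivative]
      obtain ⟨k, hk⟩ : ∃ k, m = k + 2 := ⟨m - 2, by omega⟩
      rw [hk]
      have : k + 2 - 2 + 1 + 1 = k + 2 := by omega
      rw [this]
      have : k + 2 - 2 = k := by omega
      rw [this]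
      push_cast
      ring
    · have : m = 0 ∨ m = 1 := by omega
      rcases this with h3 | h3 <;> rw [h3] <;> simp
  have e2 : (X * derivative h).coeff m = (m : ℂ) * h.coeff m := by
    rcases Nat.eq_zero_or_pos m with h3 | h3
    · rw [h3]; simp
    · obtain ⟨k, hk⟩ : ∃ k, m = k + 1 := ⟨m - 1, by omega⟩
      rw [hk, coeff_X_mul, coeff_derivative]
      push_cast
      ring
  rw [e0, e1, e2] at h1
  have hlc : h.coeff m ≠ 0 := by
    rw [hm]
    exact leadingCoeff_ne_zero.2 hne
  have h2 : ((d : ℂ) - m) * (d + m) * h.coeff m = 0 := by linear_combination h1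
  have h3 : (d : ℂ) - m ≠ 0 := by
    rw [sub_ne_zero]
    exact_mod_cast hd.ne'
  have h4 : (d : ℂ) + m ≠ 0 := by
    exact_mod_cast (by omega : d + m ≠ 0)
  exact (mul_ne_zero (mul_ne_zero h3 h4) hlc) h2

/-- polynomial solutions of the nonlinear equation. -/
theorem cheb_of_pell (g : ℂ[X]) (hd : 1 ≤ g.natDegree)
    (hp : C ((g.natDegree : ℂ) ^ 2) * (g ^ 2 - 1) = (X ^ 2 - 1) * (derivative g) ^ 2) :
    ∃ ε : ℂ, (ε = 1 ∨ ε = -1) ∧ g = C ε * Polynomial.Chebyshev.T ℂ g.natDegree := by
  set d := g.natDegree with hdd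
  have hg0 : g ≠ 0 := by rintro rfl; simp at hdd; omega
  have hg'0 : derivative g ≠ 0 := by
    intro h0
    have := derivative_eq_zero.1 h0
    omega
  have hode : (1 - X ^ 2) * derivative (derivative g) =
      X * derivative g - C ((d : ℂ) ^ 2) * g := by
    have h1 := congrArg derivative hp
    simp only [derivative_mul, derivative_sub, derivative_C, derivative_pow, derivative_X,
      derivative_one] at h1
    have h2 : (2 * derivative g) * ((1 - X ^ 2) * derivative (derivative g) -
      (X * derivative g - C ((d : ℂ) ^ 2) * g)) = 0 := by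
      have e : (C ((2 : ℕ) : ℂ) : ℂ[X]) = 2 := by rw [map_natCast]; norm_num
      simp only [e] at h1
      linear_combination h1
    have h3 : (2 * derivative g) ≠ 0 := mul_ne_zero two_ne_zero hg'0
    have h4 := (mul_eq_zero.1 h2).resolve_left h3
    exact sub_eq_zero.1 h4
  set T := Polynomial.Chebyshev.T ℂ d with hT
  have hTode : (1 - X ^ 2) * derivative (derivative T) =
      X * derivative T - C ((d : ℂ) ^ 2) * T := by
    have := Polynomial.Chebyshev.one_sub_X_sq_mul_derivative_derivative_T_eq_poly_in_T (R := ℂ) d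
    rw [Function.iterate_succ, Function.iterate_one, Function.comp_apply] at this
    rw [this, hT]
    simp
  have hTd : T.natDegree = d := by rw [hT]; simp
  have hT0 : T ≠ 0 := Polynomial.Chebyshev.T_ne_zero _ _
  have hlT : T.leadingCoeff ≠ 0 := leadingCoeff_ne_zero.2 hT0
  have hlg : g.leadingCoeff ≠ 0 := leadingCoeff_ne_zero.2 hg0
  have hzero : C T.leadingCoeff * g - C g.leadingCoeff * T = 0 := by
    by_contra hne
    refine hne (ode_unique d _ ?_ ?_)
    · simp only [derivative_sub, derivative_mul, derivative_C, zero_mul, zero_add]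
      linear_combination C T.leadingCoeff * hode - C g.leadingCoeff * hTode
    · have hdeg : (C T.leadingCoeff * g).degree = (C g.leadingCoeff * T).degree := by
        rw [degree_C_mul hlT, degree_C_mul hlg, degree_eq_natDegree hg0, degree_eq_natDegree hT0,
          hTd]
      have h1 := degree_sub_lt_left hdeg (mul_ne_zero (C_ne_zero.2 hlT) hg0) (by
        rw [leadingCoeff_mul, leadingCoeff_mul, leadingCoeff_C, leadingCoeff_C, mul_comm])
      rw [degree_C_mul hlT] at h1
      rw [hdd]
      exact (natDegree_lt_natDegree_iff hne).2 h1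
  set κ : ℂ := g.leadingCoeff / T.leadingCoeff with hκ
  have hgT : g = C κ * T := by
    have h1 : C T.leadingCoeff * g = C g.leadingCoeff * T := sub_eq_zero.1 hzero
    have h2 : C T.leadingCoeff * g = C T.leadingCoeff * (C κ * T) := by
      rw [h1, ← mul_assoc, ← C_mul, hκ, mul_div_cancel₀ _ hlT]
    exact mul_left_cancel₀ (C_ne_zero.2 hlT) h2
  have hκ2 : κ ^ 2 = 1 := by
    have h1 := congrArg (fun q : ℂ[X] => q.eval 1) hp
    simp only [eval_mul, eval_C, eval_sub, eval_pow, eval_one, eval_X] at h1
    rw [hgT] at h1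
    simp only [eval_mul, eval_C, hT, Polynomial.Chebyshev.T_eval_one] at h1
    have hd0 : (d : ℂ) ^ 2 ≠ 0 := pow_ne_zero _ (by exact_mod_cast (by omega : d ≠ 0))
    have h2 : (d : ℂ) ^ 2 * (κ ^ 2 - 1) = 0 := by linear_combination h1
    exact sub_eq_zero.1 ((mul_eq_zero.1 h2).resolve_left hd0)
  exact ⟨κ, mul_self_eq_one_iff.1 (by rw [← sq]; exact hκ2), hgT⟩

end PA3

theorem stmt_PA3 : Stmt_PA3 := by
  intro f z₁ z₂ hd hz hyp
  set d := f.natDegree with hdd
  have hf0 : f ≠ 0 := by rintro rfl; simp at hdd; omega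
  have hfz : ∀ z : ℂ, f - C z ≠ 0 := by
    intro z h0
    have : f = C z := by rw [← sub_eq_zero]; exact h0
    rw [this, natDegree_C] at hdd
    omega
  have hf'd : (derivative f).natDegree = d - 1 := natDegree_derivative f
  have hf'0 : derivative f ≠ 0 := by
    intro h0
    have := derivative_eq_zero.1 h0
    omega
  set G : ℂ[X] := (f - C z₁) * (f - C z₂) with hG
  have hG0 : G ≠ 0 := mul_ne_zero (hfz _) (hfz _)
  have hGd : G.natDegree = 2 * d := by
    rw [hG, natDegree_mul (hfz _) (hfz _), natDegree_sub_C, natDegree_sub_C]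
    omega
  have hmem : ∀ u, u ∈ G.roots.toFinset ↔ (f.eval u = z₁ ∨ f.eval u = z₂) := by
    intro u
    rw [Multiset.mem_toFinset, mem_roots hG0, IsRoot.def, hG, eval_mul, mul_eq_zero, eval_sub,
      eval_sub, eval_C, eval_C, sub_eq_zero, sub_eq_zero]
  have hcount : ∀ u, (f.eval u = z₁ ∨ f.eval u = z₂) → G.roots.count u = ldeg f u := by
    intro u hu
    rw [count_roots, hG, rootMultiplicity_mul hG0, ldeg]
    rcases hu with hu | hu
    · have : rootMultiplicity u (f - C z₂) = 0 := by
        apply rootMultiplicity_eq_zero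
        rw [IsRoot.def, eval_sub, eval_C, hu, sub_eq_zero]
        exact hz
      rw [this, hu, add_zero]
    · have : rootMultiplicity u (f - C z₁) = 0 := by
        apply rootMultiplicity_eq_zero
        rw [IsRoot.def, eval_sub, eval_C, hu, sub_eq_zero]
        exact hz.symm
      rw [this, hu, zero_add]
  set R := G.roots.toFinset.filter (fun u => ldeg f u = 2) with hR
  set S := G.roots.toFinset.filter (fun u => ldeg f u = 1) with hS
  have hS2 : S ⊆ {z₁, z₂} := by
    intro u hu
    rw [hS, Finset.mem_filter, hmem] at hu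
    rcases hyp u hu.1 with h1 | h1
    · simpa using h1.2
    · omega
  have hcardS : S.card ≤ 2 := (Finset.card_le_card hS2).trans Finset.card_le_two
  have hsum : 2 * d = S.card + 2 * R.card := by
    have h1 : Multiset.card G.roots = 2 * d := by
      rw [← hGd]
      exact ((IsAlgClosed.splits G).natDegree_eq_card_roots).symm
    rw [← h1, ← Multiset.toFinset_sum_count_eq]
    rw [← Finset.sum_filter_add_sum_filter_not G.roots.toFinset (fun u => ldeg f u = 1)]
    congr 1
    · rw [Finset.card_eq_sum_ones]
      refine Finset.sum_congr rfl fun u hu => ?_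
      rw [Finset.mem_filter, hmem] at hu
      rw [hcount u hu.1, hu.2]
    · have : G.roots.toFinset.filter (fun u => ¬ ldeg f u = 1) = R := by
        ext u
        rw [hR, Finset.mem_filter, Finset.mem_filter, hmem]
        constructor
        · rintro ⟨h1, h2⟩
          rcases hyp u h1 with h3 | h3
          · exact absurd h3.1 h2
          · exact ⟨h1, h3.1⟩
        · rintro ⟨h1, h2⟩
          exact ⟨h1, by omega⟩
      rw [this, mul_comm, Finset.card_eq_sum_ones, Finset.sum_mul]
      refine Finset.sum_congr rfl fun u hu => ?_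
      rw [hR, Finset.mem_filter, hmem] at hu
      rw [hcount u hu.1, hu.2, one_mul]
  -- the points of `R` are critical
  have hRcrit : R.val ≤ (derivative f).roots := by
    rw [Multiset.le_iff_subset R.nodup]
    intro u hu
    have hu' : u ∈ R := hu
    rw [hR, Finset.mem_filter] at hu'
    rw [mem_roots hf'0]
    have h1 : 1 < (f - C (f.eval u)).rootMultiplicity u := by
      have : ldeg f u = 2 := hu'.2
      unfold ldeg at this
      omega
    have h2 := (one_lt_rootMultiplicity_iff_isRoot (hfz (f.eval u))).1 h1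
    have h3 := h2.2
    rwa [derivative_sub, derivative_C, sub_zero] at h3
  have hRcard : R.card ≤ d - 1 := by
    have h1 := Multiset.card_le_card hRcrit
    have h2 := card_roots' (derivative f)
    rw [hf'd] at h2
    exact h1.trans h2
  have hS2' : S.card = 2 := by omega
  have hRd : R.card = d - 1 := by omega
  have hSeq : S = {z₁, z₂} := Finset.eq_of_subset_of_card_le hS2 (by
    rw [hS2', Finset.card_pair hz])
  have hR' : R.val = (derivative f).roots := by
    apply Multiset.eq_of_le_of_card_le hRcrit
    have h2 := card_roots' (derivative f)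
    rw [hf'd] at h2
    exact h2.trans (by rw [← hRd]; rfl)
  set W : ℂ[X] := (R.val.map (fun u => X - C u)).prod with hW
  have hf'W : derivative f = C (d * f.leadingCoeff) * W := by
    have h1 := (IsAlgClosed.splits (derivative f)).eq_prod_roots
    rw [← hR', ← hW] at h1
    rw [h1]
    congr 2
    rw [leadingCoeff, hf'd, coeff_derivative, leadingCoeff, ← hdd]
    obtain ⟨k, hk⟩ : ∃ k, d = k + 1 := ⟨d - 1, by omega⟩
    rw [hk]
    push_cast
    ring
  have hGroots : G.roots = S.val + (R.val + R.val) := by
    ext u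
    rw [Multiset.count_add, Multiset.count_add]
    by_cases hu : f.eval u = z₁ ∨ f.eval u = z₂
    · rw [hcount u hu]
      rcases hyp u hu with h1 | h1
      · have hS' : u ∈ S.val := by
          change u ∈ S
          rw [hS, Finset.mem_filter, hmem]
          exact ⟨hu, h1.1⟩
        have hR' : u ∉ R.val := by
          change u ∉ R
          rw [hR, Finset.mem_filter, hmem]
          omega
        rw [Multiset.count_eq_one_of_mem S.nodup hS', Multiset.count_eq_zero_of_notMem hR', h1.1]
      · have hR' : u ∈ R.val := by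
          change u ∈ R
          rw [hR, Finset.mem_filter, hmem]
          exact ⟨hu, h1.1⟩
        have hS' : u ∉ S.val := by
          change u ∉ S
          rw [hS, Finset.mem_filter, hmem]
          omega
        rw [Multiset.count_eq_one_of_mem R.nodup hR', Multiset.count_eq_zero_of_notMem hS', h1.1]
    · have h0 : u ∉ G.roots.toFinset := by rw [hmem]; exact hu
      have hS' : u ∉ S.val := by
        change u ∉ S
        exact fun h => h0 (Finset.mem_filter.1 h).1
      have hR' : u ∉ R.val := by
        change u ∉ R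
        exact fun h => h0 (Finset.mem_filter.1 h).1
      rw [Multiset.count_eq_zero_of_notMem hS', Multiset.count_eq_zero_of_notMem hR',
        Multiset.count_eq_zero_of_notMem (fun h => h0 (Multiset.mem_toFinset.2 h))]
  have hGprod : G = C (f.leadingCoeff ^ 2) * ((X - C z₁) * (X - C z₂)) * W ^ 2 := by
    have h1 := (IsAlgClosed.splits G).eq_prod_roots
    rw [hGroots, Multiset.map_add, Multiset.map_add, Multiset.prod_add, Multiset.prod_add,
      ← hW] at h1
    have h2 : (S.val.map (fun u => X - C u)).prod = (X - C z₁) * (X - C z₂) := by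
      rw [hSeq]
      exact Finset.prod_pair hz
    have h3 : G.leadingCoeff = f.leadingCoeff ^ 2 := by
      rw [hG, leadingCoeff_mul, sq]
      congr 1 <;>
      · rw [leadingCoeff, natDegree_sub_C, coeff_sub, coeff_C, if_neg (by omega), sub_zero,
          leadingCoeff]
    rw [h2, h3] at h1
    rw [h1]
    ring
  have hmain : C ((d : ℂ) ^ 2) * G = (X - C z₁) * (X - C z₂) * (derivative f) ^ 2 := by
    rw [hGprod, hf'W]
    simp only [C_mul, C_pow]
    ring
  -- normalisation
  set α : ℂ := (z₂ - z₁) / 2 with hα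
  set β : ℂ := (z₁ + z₂) / 2 with hβ
  have hα0 : α ≠ 0 := div_ne_zero (sub_ne_zero.2 hz.symm) two_ne_zero
  have hz1 : z₁ = β - α := by rw [hα, hβ]; ring
  have hz2 : z₂ = β + α := by rw [hα, hβ]; ring
  set ℓ : ℂ[X] := C α * X + C β with hℓ
  have hℓd : ℓ.natDegree = 1 := natDegree_linear hα0
  set g : ℂ[X] := C α⁻¹ * (f.comp ℓ - C β) with hg
  have hCα : C α * C α⁻¹ = (1 : ℂ[X]) := by rw [← C_mul, mul_inv_cancel₀ hα0, C_1]
  have hgd : g.natDegree = d := by
    rw [hg, natDegree_C_mul (inv_ne_zero hα0), natDegree_sub_C, natDegree_comp, hℓd, mul_one]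
  have hg' : derivative g = (derivative f).comp ℓ := by
    rw [hg, derivative_C_mul, derivative_sub, derivative_C, derivative_comp, hℓ]
    simp only [derivative_add, derivative_C, derivative_mul, derivative_X, sub_zero, zero_mul,
      zero_add, add_zero, mul_one]
    linear_combination ((derivative f).comp (C α * X + C β)) * hCα
  have hp : C ((g.natDegree : ℂ) ^ 2) * (g ^ 2 - 1) = (X ^ 2 - 1) * (derivative g) ^ 2 := by
    rw [hgd, hg']
    have h1 := congrArg (fun q : ℂ[X] => q.comp ℓ) hmain
    simp only [mul_comp, sub_comp, C_comp, X_comp, pow_comp, hG] at h1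
    have e1 : (ℓ - C z₁) * (ℓ - C z₂) = C α ^ 2 * (X ^ 2 - 1) := by
      rw [hℓ, hz1, hz2, C_sub, C_add]
      ring
    have e2 : (f.comp ℓ - C z₁) * (f.comp ℓ - C z₂) = C α ^ 2 * (g ^ 2 - 1) := by
      have e3 : f.comp ℓ = C α * g + C β := by
        rw [hg]
        linear_combination (-(f.comp ℓ - C β)) * hCα
      rw [e3, hz1, hz2, C_sub, C_add]
      ring
    rw [e1, e2] at h1
    have h2 : C α ^ 2 * (C ((d : ℂ) ^ 2) * (g ^ 2 - 1)) =
        C α ^ 2 * ((X ^ 2 - 1) * ((derivative f).comp ℓ) ^ 2) := by
      linear_combination h1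
    exact mul_left_cancel₀ (pow_ne_zero _ (C_ne_zero.2 hα0)) h2
  obtain ⟨ε, hε, hgε⟩ := PA3.cheb_of_pell g (by omega) hp
  refine ⟨α, β, ε, hα0, hε, ?_⟩
  rw [hgd] at hgε
  have h1 : (C α * X + C β : ℂ[X]).comp (C ε * Polynomial.Chebyshev.T ℂ d) = C α * g + C β := by
    rw [hgε]
    simp
  rw [h1, hg]
  linear_combination (-(f.comp ℓ - C β)) * hCα

end PCF
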