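import Pool.Agent.Work.MP_80ff4e_al_56.PA124
import Pool.Agent.Work.MP_80ff4e_al_56.PA1
import Pool.Agent.Work.MP_80ff4e_al_56.PA3

/-! Block PA: `PCF.stmt_PA1`, `PCF.stmt_PA2`, `PCF.stmt_PA3`, `PCF.stmt_PA4`. -/
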