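import Pool.Agent.Work.MP_80ff4e_al.Interface

/-!
# Block PA: PA1, PA2, PA4
-/

set_option autoImplicit false

open Polynomial

namespace PCF

theorem stmt_PA4 : Stmt_PA4 := by
  intro f z₀ hd h
  have hne : f - C z₀ ≠ 0 := by
    intro h0
    have : f = C z₀ := by rw [← sub_eq_zero]; exact h0
    rw [this, natDegree_C] at hd
    omega
  have hs : (f - C z₀).Splits := IsAlgClosed.splits _
  have hroots : (f - C z₀).roots = Multiset.replicate (f - C z₀).roots.card z₀ := by
    rw [Multiset.eq_replicate]
    refine ⟨rfl, fun b hb => ?_⟩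
    rw [mem_roots hne, IsRoot.def, eval_sub, eval_C, sub_eq_zero] at hb
    exact h b hb
  have hcard : (f - C z₀).roots.card = f.natDegree := by
    rw [← hs.natDegree_eq_card_roots, natDegree_sub_C]
  refine ⟨(f - C z₀).leadingCoeff, ?_⟩
  have h1 := hs.eq_prod_roots
  rw [hroots, hcard, Multiset.map_replicate, Multiset.prod_replicate] at h1
  rw [← h1]
  ring

theorem stmt_PA2 : Stmt_PA2 := by
  intro E F hE hinf
  set l : ℂ := E.leadingCoeff with hl
  have hE0 : E ≠ 0 := by rintro rfl; simp at hE
  have hl0 : l ≠ 0 := leadingCoeff_ne_zero.2 hE0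
  set E₁ : ℂ[X] := C l⁻¹ * E with hE₁
  have hE₁m : E₁.Monic := by
    rw [Monic, hE₁, leadingCoeff_mul, leadingCoeff_C, ← hl, inv_mul_cancel₀ hl0]
  have hE₁d : E₁.natDegree = E.natDegree := natDegree_C_mul (inv_ne_zero hl0)
  -- the polynomial `E₁(X) - l⁻¹ y` over `ℂ[y]`
  set P : ℂ[X][X] := E₁.map C - C (C l⁻¹ * X) with hP
  have hE₁mC : (E₁.map C).Monic := hE₁m.map C
  have hPm : P.Monic := by
    apply Monic.sub_of_left hE₁mC
    refine lt_of_le_of_lt degree_C_le ?_
    rw [← natDegree_pos_iff_degree_pos, natDegree_map_eq_of_injective C_injective, hE₁d]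
    omega
  have hPd : P.natDegree = E.natDegree := by
    rw [hP, natDegree_sub_C, natDegree_map_eq_of_injective C_injective, hE₁d]
  set G : ℂ[X][X] := F.map C %ₘ P with hG
  set Qt : ℂ[X][X] := F.map C /ₘ P with hQ
  have hdiv : G + P * Qt = F.map C := modByMonic_add_div _ P
  have hGd : G.natDegree < E.natDegree := by
    rw [← hPd]
    exact natDegree_modByMonic_lt _ hPm (by
      intro h1
      rw [h1, natDegree_one] at hPd
      omega)
  -- specialisation
  have hspec : ∀ y : ℂ, (fibre E y).card = E.natDegree →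
      (∀ u v, E.eval u = y → E.eval v = y → F.eval u = F.eval v) →
      ∀ i, 1 ≤ i → (G.coeff i).eval y = 0 := by
    intro y hcard hconst i hi
    have hEy : E - C y ≠ 0 := by
      intro h0
      have : E = C y := by rw [← sub_eq_zero]; exact h0
      rw [this, natDegree_C] at hE
      omega
    have hmem : ∀ u, u ∈ fibre E y ↔ E.eval u = y := by
      intro u
      rw [fibre, Multiset.mem_toFinset, mem_roots hEy, IsRoot.def, eval_sub, eval_C, sub_eq_zero]
    obtain ⟨u₀, hu₀⟩ : (fibre E y).Nonempty := Finset.card_pos.1 (by omega)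
    set Gy : ℂ[X] := G.map (evalRingHom y) with hGy
    have hGev : ∀ u, E.eval u = y → Gy.eval u = F.eval u := by
      intro u hu
      have h1 := congrArg (fun q : ℂ[X][X] => (q.map (evalRingHom y)).eval u) hdiv
      simp only [Polynomial.map_add, Polynomial.map_mul, eval_add, eval_mul] at h1
      have h2 : (P.map (evalRingHom y)).eval u = 0 := by
        rw [hP, Polynomial.map_sub, eval_sub, Polynomial.map_map, Polynomial.map_C]
        have h3 : (evalRingHom y).comp C = RingHom.id ℂ := by
          ext <;> simp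
        rw [h3, Polynomial.map_id, hE₁, eval_mul, eval_C, eval_C, hu]
        simp
      have h4 : ((F.map C).map (evalRingHom y)).eval u = F.eval u := by
        rw [Polynomial.map_map]
        have h3 : (evalRingHom y).comp C = RingHom.id ℂ := by
          ext <;> simp
        rw [h3, Polynomial.map_id]
      rw [h2, zero_mul, add_zero, h4] at h1
      exact h1
    -- `Gy - C (F u₀)` has too many roots
    have hGyd : (Gy - C (F.eval u₀)).natDegree < (fibre E y).card := by
      rw [natDegree_sub_C, hcard]
      exact lt_of_le_of_lt natDegree_map_le hGd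
    have hzero : Gy - C (F.eval u₀) = 0 := by
      apply eq_zero_of_natDegree_lt_card_of_eval_eq_zero' _ (fibre E y)
      · intro u hu
        rw [eval_sub, eval_C, hGev u ((hmem u).1 hu),
          hconst u u₀ ((hmem u).1 hu) ((hmem u₀).1 hu₀), sub_self]
      · exact hGyd
    have h5 : Gy = C (F.eval u₀) := by rw [← sub_eq_zero]; exact hzero
    have h6 := congrArg (fun q : ℂ[X] => q.coeff i) h5
    simp only [hGy, coeff_map, coe_evalRingHom, coeff_C] at h6
    rw [h6, if_neg (by omega)]
  have hcoeff : ∀ i, 1 ≤ i → G.coeff i = 0 := by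
    intro i hi
    apply Polynomial.eq_zero_of_infinite_isRoot
    refine hinf.mono ?_
    rintro y ⟨h1, h2⟩
    exact hspec y h1 h2 i hi
  have hGC : G = C (G.coeff 0) := by
    ext1 i
    rcases Nat.eq_zero_or_pos i with rfl | hi
    · simp
    · rw [hcoeff i hi, coeff_C, if_neg (by omega)]
  refine ⟨G.coeff 0, ?_⟩
  -- substitution `y := E`
  have h1 := congrArg (fun q : ℂ[X][X] => q.eval₂ (compRingHom E) X) hdiv
  simp only [eval₂_add, eval₂_mul] at h1
  have hP0 : P.eval₂ (compRingHom E) X = 0 := by
    rw [hP, eval₂_sub, eval₂_C, eval₂_map]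
    have h3 : (compRingHom E).comp C = (C : ℂ →+* ℂ[X]) := by
      ext x
      simp
    rw [h3, eval₂_C_X, hE₁]
    simp
  have hF0 : (F.map C).eval₂ (compRingHom E) X = F := by
    rw [eval₂_map]
    have h3 : (compRingHom E).comp C = (C : ℂ →+* ℂ[X]) := by
      ext x
      simp
    rw [h3, eval₂_C_X]
  rw [hP0, zero_mul, add_zero, hF0, hGC, eval₂_C] at h1
  rw [← h1]
  simp

end PCF
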